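import Mathlib
import Pool.Agent.H815.HF.Holland

/-!
Holland's representation, in one faithful form, and bounded representations of countable
subgroups on the rational numbers.
-/

namespace Pool.Agent.Y29.LP

/-- the lexicographic sum of automorphisms -/
noncomputable def sumIso {ι : Type} [LinearOrder ι] {Ω : ι → Type} [∀ i, LinearOrder (Ω i)]
    (F : ∀ i, Ω i ≃o Ω i) : (Σₗ i, Ω i) ≃o (Σₗ i, Ω i) where
  toFun x := toLex ⟨(ofLex x).1, F _ (ofLex x).2⟩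
  invFun x := toLex ⟨(ofLex x).1, (F _).symm (ofLex x).2⟩
  left_inv := by
    rintro ⟨i, a⟩
    show toLex (⟨i, (F i).symm (F i a)⟩ : Σ i, Ω i) = _
    rw [OrderIso.symm_apply_apply]; rfl
  right_inv := by
    rintro ⟨i, a⟩
    show toLex (⟨i, F i ((F i).symm a)⟩ : Σ i, Ω i) = _
    rw [OrderIso.apply_symm_apply]; rfl
  map_rel_iff' := by
    rintro ⟨i, a⟩ ⟨j, b⟩
    show Sigma.Lex _ _ (⟨i, F i a⟩ : Σ i, Ω i) ⟨j, F j b⟩ ↔ Sigma.Lex _ _ (⟨i, a⟩ : Σ i, Ω i) ⟨j, b⟩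
    rw [Sigma.lex_iff, Sigma.lex_iff]
    constructor
    · rintro (h | ⟨h, h'⟩)
      · exact Or.inl h
      · obtain rfl : i = j := h
        exact Or.inr ⟨rfl, (F i).le_iff_le.1 h'⟩
    · rintro (h | ⟨h, h'⟩)
      · exact Or.inl h
      · obtain rfl : i = j := h
        exact Or.inr ⟨rfl, (F i).le_iff_le.2 h'⟩

theorem sumIso_mk {ι : Type} [LinearOrder ι] {Ω : ι → Type} [∀ i, LinearOrder (Ω i)]
    (F : ∀ i, Ω i ≃o Ω i) (i : ι) (a : Ω i) :
    sumIso F (toLex ⟨i, a⟩) = toLex ⟨i, F i a⟩ := rfl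

theorem sum_mono {ι : Type} [LinearOrder ι] {Ω : ι → Type} [∀ i, LinearOrder (Ω i)] (i : ι) :
    Monotone (fun a : Ω i => (toLex ⟨i, a⟩ : Σₗ i, Ω i)) := by
  intro a b h
  show Sigma.Lex _ _ (⟨i, a⟩ : Σ i, Ω i) ⟨i, b⟩
  exact Sigma.Lex.right _ _ h

/-- Holland's theorem in one faithful form: every lattice-ordered group is a lattice-ordered
group of automorphisms of some chain. -/
theorem holland_faithful (G : Type) [Group G] [Lattice G] [MulLeftMono G] [MulRightMono G] :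
    ∃ (Ω : Type) (_ : LinearOrder Ω) (ρ : G →* (Ω ≃o Ω)),
      (∀ (a b : G) (x : Ω), ρ (a ⊔ b) x = max (ρ a x) (ρ b x)) ∧
      (∀ (a b : G) (x : Ω), ρ (a ⊓ b) x = min (ρ a x) (ρ b x)) ∧
      ∀ g, g ≠ 1 → ρ g ≠ 1 := by
  classical
  choose Ω LO ρ h1 h2 h3 using fun i : {g : G // g ≠ 1} =>
    Pool.Agent.H815.HF.HollandM.holland G i.1 i.2
  let _ : LinearOrder {g : G // g ≠ 1} := linearOrderOfSTO WellOrderingRel
  refine ⟨Σₗ i, Ω i, inferInstance, ⟨⟨fun g => sumIso (fun i => ρ i g), ?_⟩, ?_⟩, ?_, ?_, ?_⟩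
  · ext ⟨i, a⟩
    show toLex (⟨i, ρ i 1 a⟩ : Σ i, Ω i) = _
    rw [map_one]; rfl
  · intro g g'
    ext ⟨i, a⟩
    show toLex (⟨i, ρ i (g * g') a⟩ : Σ i, Ω i) = toLex (⟨i, ρ i g (ρ i g' a)⟩ : Σ i, Ω i)
    rw [map_mul]; rfl
  · rintro a b ⟨i, x⟩
    show toLex (⟨i, ρ i (a ⊔ b) x⟩ : Σ i, Ω i) =
      max (toLex (⟨i, ρ i a x⟩ : Σ i, Ω i)) (toLex (⟨i, ρ i b x⟩ : Σ i, Ω i))
    rw [h1]
    exact (sum_mono i).map_max
  · rintro a b ⟨i, x⟩
    show toLex (⟨i, ρ i (a ⊓ b) x⟩ : Σ i, Ω i) =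
      min (toLex (⟨i, ρ i a x⟩ : Σ i, Ω i)) (toLex (⟨i, ρ i b x⟩ : Σ i, Ω i))
    rw [h2]
    exact (sum_mono i).map_min
  · intro g hg h
    apply h3 ⟨g, hg⟩
    ext x
    have h4 : (toLex (⟨⟨g, hg⟩, ρ ⟨g, hg⟩ g x⟩ : Σ i, Ω i) : Σₗ i, Ω i) =
        toLex (⟨⟨g, hg⟩, x⟩ : Σ i, Ω i) := by
      have h5 := DFunLike.congr_fun h (toLex (⟨⟨g, hg⟩, x⟩ : Σ i, Ω i))
      exact h5
    have h6 := toLex.injective h4
    have h7 := (Sigma.mk.inj_iff.1 h6).2
    exact eq_of_heq h7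

/-- the action on a countable chain with blocks `ℚ` -/
def blk {Ω : Type} [LinearOrder Ω] (f : Ω ≃o Ω) :
    (WithBot (WithTop Ω) ×ₗ ℚ) ≃o (WithBot (WithTop Ω) ×ₗ ℚ) where
  toFun x := toLex (f.withTopCongr.withBotCongr (ofLex x).1, (ofLex x).2)
  invFun x := toLex (f.withTopCongr.withBotCongr.symm (ofLex x).1, (ofLex x).2)
  left_inv := by
    rintro ⟨a, q⟩
    show toLex (f.withTopCongr.withBotCongr.symm (f.withTopCongr.withBotCongr a), q) = _
    rw [OrderIso.symm_apply_apply]; rfl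
  right_inv := by
    rintro ⟨a, q⟩
    show toLex (f.withTopCongr.withBotCongr (f.withTopCongr.withBotCongr.symm a), q) = _
    rw [OrderIso.apply_symm_apply]; rfl
  map_rel_iff' := by
    rintro ⟨a, q⟩ ⟨b, r⟩
    show toLex (f.withTopCongr.withBotCongr a, q) ≤ toLex (f.withTopCongr.withBotCongr b, r) ↔
      toLex (a, q) ≤ toLex (b, r)
    generalize f.withTopCongr.withBotCongr = e
    rw [Prod.Lex.toLex_le_toLex, Prod.Lex.toLex_le_toLex]
    show e a < e b ∨ e a = e b ∧ q ≤ r ↔ a < b ∨ a = b ∧ q ≤ r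
    rw [e.lt_iff_lt, e.injective.eq_iff]

section blk

variable {Ω : Type} [LinearOrder Ω]

theorem blk_coe (f : Ω ≃o Ω) (x : Ω) (q : ℚ) :
    blk f (toLex (((x : WithTop Ω) : WithBot (WithTop Ω)), q)) =
      toLex (((f x : WithTop Ω) : WithBot (WithTop Ω)), q) := rfl

theorem blk_bot (f : Ω ≃o Ω) (q : ℚ) :
    blk f (toLex ((⊥ : WithBot (WithTop Ω)), q)) = toLex ((⊥ : WithBot (WithTop Ω)), q) := rfl

theorem blk_top (f : Ω ≃o Ω) (q : ℚ) :
    blk f (toLex (((⊤ : WithTop Ω) : WithBot (WithTop Ω)), q)) =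
      toLex (((⊤ : WithTop Ω) : WithBot (WithTop Ω)), q) := rfl

theorem coe_mono (q : ℚ) :
    Monotone (fun x : Ω => (toLex (((x : WithTop Ω) : WithBot (WithTop Ω)), q) :
      WithBot (WithTop Ω) ×ₗ ℚ)) := by
  intro x y h
  rcases h.lt_or_eq with h | h
  · refine (Prod.Lex.toLex_le_toLex).2 (Or.inl ?_)
    exact WithBot.coe_lt_coe.2 (WithTop.coe_lt_coe.2 h)
  · rw [h]

theorem blk_cases (z : WithBot (WithTop Ω) ×ₗ ℚ) :
    (∃ q, z = toLex ((⊥ : WithBot (WithTop Ω)), q)) ∨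
    (∃ q, z = toLex (((⊤ : WithTop Ω) : WithBot (WithTop Ω)), q)) ∨
    (∃ (x : Ω) (q : ℚ), z = toLex (((x : WithTop Ω) : WithBot (WithTop Ω)), q)) := by
  obtain ⟨c, q⟩ := z
  induction c using WithBot.recBotCoe with
  | bot => exact Or.inl ⟨q, rfl⟩
  | coe c =>
    induction c using WithTop.recTopCoe with
    | top => exact Or.inr (Or.inl ⟨q, rfl⟩)
    | coe x => exact Or.inr (Or.inr ⟨x, q, rfl⟩)

theorem blk_max {f g h : Ω ≃o Ω} (H : ∀ x, h x = max (f x) (g x))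
    (z : WithBot (WithTop Ω) ×ₗ ℚ) : blk h z = max (blk f z) (blk g z) := by
  rcases blk_cases z with ⟨q, rfl⟩ | ⟨q, rfl⟩ | ⟨x, q, rfl⟩
  · rw [blk_bot, blk_bot, blk_bot, max_self]
  · rw [blk_top, blk_top, blk_top, max_self]
  · rw [blk_coe, blk_coe, blk_coe, H]
    rcases le_total (f x) (g x) with h1 | h1
    · rw [max_eq_right h1, max_eq_right (coe_mono q h1)]
    · rw [max_eq_left h1, max_eq_left (coe_mono q h1)]

theorem blk_min {f g h : Ω ≃o Ω} (H : ∀ x, h x = min (f x) (g x))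
    (z : WithBot (WithTop Ω) ×ₗ ℚ) : blk h z = min (blk f z) (blk g z) := by
  rcases blk_cases z with ⟨q, rfl⟩ | ⟨q, rfl⟩ | ⟨x, q, rfl⟩
  · rw [blk_bot, blk_bot, blk_bot, min_self]
  · rw [blk_top, blk_top, blk_top, min_self]
  · rw [blk_coe, blk_coe, blk_coe, H]
    rcases le_total (f x) (g x) with h1 | h1
    · rw [min_eq_left h1, min_eq_left (coe_mono q h1)]
    · rw [min_eq_right h1, min_eq_right (coe_mono q h1)]

theorem blk_mul (f g : Ω ≃o Ω) (z : WithBot (WithTop Ω) ×ₗ ℚ) :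
    blk (f * g) z = blk f (blk g z) := by
  rcases blk_cases z with ⟨q, rfl⟩ | ⟨q, rfl⟩ | ⟨x, q, rfl⟩ <;> rfl

/-- restriction of an automorphism to an invariant subset -/
def res (S : Set Ω) (f : Ω ≃o Ω) (h : ∀ x ∈ S, f x ∈ S) (h' : ∀ x ∈ S, f.symm x ∈ S) :
    S ≃o S where
  toFun x := ⟨f x, h x x.2⟩
  invFun x := ⟨f.symm x, h' x x.2⟩
  left_inv x := Subtype.ext (f.symm_apply_apply _)
  right_inv x := Subtype.ext (f.apply_symm_apply _)
  map_rel_iff' := by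
    intro x y
    exact f.le_iff_le

end blk

/-- Countable subgroups of a lattice-ordered group of automorphisms are represented by
automorphisms of `ℚ` with common bounds of the supports. -/
theorem rep {G : Type} [Group G] [Lattice G] {Ω : Type} [LinearOrder Ω] (ρ : G →* (Ω ≃o Ω))
    (hsup : ∀ (a b : G) (x : Ω), ρ (a ⊔ b) x = max (ρ a x) (ρ b x))
    (hinf : ∀ (a b : G) (x : Ω), ρ (a ⊓ b) x = min (ρ a x) (ρ b x))
    (hfaith : ∀ g, g ≠ 1 → ρ g ≠ 1) (H : Subgroup G) (hH : (H : Set G).Countable) :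
    ∃ ψ : G → (ℚ ≃o ℚ), (∀ a ∈ H, ∀ b ∈ H, ψ (a * b) = ψ a * ψ b) ∧
      (∀ a ∈ H, ∀ b ∈ H, a ⊔ b ∈ H → ∀ t, ψ (a ⊔ b) t = max (ψ a t) (ψ b t)) ∧
      (∀ a ∈ H, ∀ b ∈ H, a ⊓ b ∈ H → ∀ t, ψ (a ⊓ b) t = min (ψ a t) (ψ b t)) ∧
      (∀ a ∈ H, a ≠ 1 → ψ a ≠ 1) ∧
      ∃ t₁ t₂ : ℚ, ∀ a, (∀ s, s < t₁ → ψ a s = s) ∧ (∀ s, t₂ < s → ψ a s = s) := by
  classical
  have hx : ∀ g : {g : G // g ≠ 1}, ∃ x : Ω, ρ g.1 x ≠ x := by
    intro g
    by_contra hcon
    push Not at hcon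
    apply hfaith g.1 g.2
    ext x
    exact hcon x
  choose x hx using hx
  let S : Set Ω := Set.range (fun p : H × {g : H // (g : G) ≠ 1} => ρ p.1 (x ⟨p.2.1, p.2.2⟩))
  have hc : Countable H := hH.to_subtype
  have hS : S.Countable := Set.countable_range _
  have hcS : Countable S := hS.to_subtype
  have hinv : ∀ a ∈ H, ∀ y ∈ S, ρ a y ∈ S := by
    rintro a ha _ ⟨⟨h, g⟩, rfl⟩
    refine ⟨⟨⟨a, ha⟩ * h, g⟩, ?_⟩
    show ρ (a * h) _ = ρ a (ρ h _)
    rw [map_mul]; rfl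
  have hinv' : ∀ a ∈ H, ∀ y ∈ S, (ρ a).symm y ∈ S := by
    intro a ha y hy
    have h := hinv a⁻¹ (H.inv_mem ha) y hy
    rw [map_inv] at h
    exact h
  have hcc : Countable (WithBot (WithTop S) ×ₗ ℚ) :=
    inferInstanceAs (Countable (Option (Option S) × ℚ))
  obtain ⟨e⟩ : Nonempty ((WithBot (WithTop S) ×ₗ ℚ) ≃o ℚ) := Order.iso_of_countable_dense _ _
  let σ : ∀ a ∈ H, (S ≃o S) := fun a ha => res S (ρ a) (hinv a ha) (hinv' a ha)
  let ψ : G → (ℚ ≃o ℚ) := fun a => if h : a ∈ H then (e.symm.trans (blk (σ a h))).trans e else 1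
  have hψ : ∀ a (h : a ∈ H) t, ψ a t = e (blk (σ a h) (e.symm t)) := by
    intro a h t
    show (if h : a ∈ H then (e.symm.trans (blk (σ a h))).trans e else 1 : ℚ ≃o ℚ) t = _
    rw [dif_pos h]; rfl
  have hψ1 : ∀ a, a ∉ H → ψ a = 1 := by
    intro a h
    exact dif_neg h
  refine ⟨ψ, ?_, ?_, ?_, ?_, e (toLex (⊥, 0)), e (toLex (((⊤ : WithTop S) : WithBot (WithTop S)), 0)),
    fun a => ⟨?_, ?_⟩⟩
  · intro a ha b hb
    ext t
    rw [RelIso.mul_apply, hψ b hb, hψ a ha, hψ _ (H.mul_mem ha hb), OrderIso.symm_apply_apply,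
      ← blk_mul]
    congr 3
    ext y
    show ρ (a * b) y = ρ a (ρ b y)
    rw [map_mul]; rfl
  · intro a ha b hb hab t
    rw [hψ b hb, hψ a ha, hψ _ hab, blk_max (f := σ a ha) (g := σ b hb)]
    · exact e.monotone.map_max
    · intro y
      apply Subtype.ext
      refine (hsup a b y).trans ?_
      rcases le_total (σ a ha y) (σ b hb y) with h1 | h1
      · rw [max_eq_right h1]; exact max_eq_right h1
      · rw [max_eq_left h1]; exact max_eq_left h1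
  · intro a ha b hb hab t
    rw [hψ b hb, hψ a ha, hψ _ hab, blk_min (f := σ a ha) (g := σ b hb)]
    · exact e.monotone.map_min
    · intro y
      apply Subtype.ext
      refine (hinf a b y).trans ?_
      rcases le_total (σ a ha y) (σ b hb y) with h1 | h1
      · rw [min_eq_left h1]; exact min_eq_left h1
      · rw [min_eq_right h1]; exact min_eq_right h1
  · intro a ha ha1 h
    have hyS : x ⟨a, ha1⟩ ∈ S := by
      refine ⟨⟨1, ⟨⟨a, ha⟩, ha1⟩⟩, ?_⟩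
      show ρ (1 : G) _ = _
      rw [map_one]; rfl
    have h2 := DFunLike.congr_fun h (e (toLex ((((⟨_, hyS⟩ : S) : WithTop S) :
      WithBot (WithTop S)), 0)))
    rw [hψ a ha, OrderIso.symm_apply_apply, blk_coe] at h2
    have h3 := congrArg Prod.fst (toLex.injective (e.injective h2))
    have h4 := WithTop.coe_injective (WithBot.coe_injective h3)
    exact hx ⟨a, ha1⟩ (congrArg Subtype.val h4)
  · intro s hs
    by_cases ha : a ∈ H
    · rw [hψ a ha]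
      have h1 : e.symm s < toLex ((⊥ : WithBot (WithTop S)), (0 : ℚ)) := by
        rwa [OrderIso.symm_apply_lt]
      rcases blk_cases (e.symm s) with ⟨q, h⟩ | ⟨q, h⟩ | ⟨y, q, h⟩
      · rw [h, blk_bot, ← h, OrderIso.apply_symm_apply]
      · rw [h, blk_top, ← h, OrderIso.apply_symm_apply]
      · rw [h, Prod.Lex.toLex_lt_toLex] at h1
        rcases h1 with h1 | h1
        · exact absurd h1 not_lt_bot
        · exact absurd h1.1 (WithBot.coe_ne_bot)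
    · rw [hψ1 a ha]; rfl
  · intro s hs
    by_cases ha : a ∈ H
    · rw [hψ a ha]
      have h1 : toLex (((⊤ : WithTop S) : WithBot (WithTop S)), (0 : ℚ)) < e.symm s := by
        rwa [OrderIso.lt_symm_apply]
      rcases blk_cases (e.symm s) with ⟨q, h⟩ | ⟨q, h⟩ | ⟨y, q, h⟩
      · rw [h, blk_bot, ← h, OrderIso.apply_symm_apply]
      · rw [h, blk_top, ← h, OrderIso.apply_symm_apply]
      · rw [h, Prod.Lex.toLex_lt_toLex] at h1
        rcases h1 with h1 | h1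
        · exact absurd (WithBot.coe_lt_coe.1 h1) not_top_lt
        · exact absurd (WithBot.coe_injective h1.1) (WithTop.coe_ne_top).symm
    · rw [hψ1 a ha]; rfl

end Pool.Agent.Y29.LP
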