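import Pool.Agent.Y29.LP.Loc
import Pool.Agent.Y29.LP.Rep

/-!
Every lattice-ordered group embeds into a 2-transitive lattice-ordered group of bounded
automorphisms of a chain without l-primes.
-/

namespace Pool.Agent.Y29.LP

open Filter
open Pool.Agent.Results.MP_31a5b6_al.EtaOne (IsSublatticeOf TwoTransitive BoundedSupport IsLPrime
  osup oinf osup_apply oinf_apply LL LL_twoTransitive)

/-- the group of all bounded automorphisms of a chain -/
def BT (T : Type) [LinearOrder T] (hne : Nonempty T) : Subgroup (T ≃o T) where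
  carrier := {f | ∃ t₁ t₂ : T, (∀ s, s < t₁ → f s = s) ∧ (∀ s, t₂ < s → f s = s)}
  one_mem' := by
    obtain ⟨x⟩ := hne
    exact ⟨x, x, fun _ _ => rfl, fun _ _ => rfl⟩
  mul_mem' := by
    rintro f g ⟨t₁, t₂, h₁, h₂⟩ ⟨t₃, t₄, h₃, h₄⟩
    refine ⟨min t₁ t₃, max t₂ t₄, fun s hs => ?_, fun s hs => ?_⟩
    · show f (g s) = s
      rw [h₃ s (lt_of_lt_of_le hs (min_le_right _ _)), h₁ s (lt_of_lt_of_le hs (min_le_left _ _))]
    · show f (g s) = s
      rw [h₄ s (lt_of_le_of_lt (le_max_right _ _) hs), h₂ s (lt_of_le_of_lt (le_max_left _ _) hs)]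
  inv_mem' := by
    rintro f ⟨t₁, t₂, h₁, h₂⟩
    refine ⟨t₁, t₂, fun s hs => ?_, fun s hs => ?_⟩
    · show f.symm s = s
      rw [OrderIso.symm_apply_eq]; exact (h₁ s hs).symm
    · show f.symm s = s
      rw [OrderIso.symm_apply_eq]; exact (h₂ s hs).symm

theorem BT_sublattice (T : Type) [LinearOrder T] (hne : Nonempty T) :
    IsSublatticeOf (BT T hne) := by
  rintro f ⟨t₁, t₂, h₁, h₂⟩ g ⟨t₃, t₄, h₃, h₄⟩
  refine ⟨⟨osup f g, ⟨min t₁ t₃, max t₂ t₄, fun s hs => ?_, fun s hs => ?_⟩,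
    fun t => rfl⟩, ⟨oinf f g, ⟨min t₁ t₃, max t₂ t₄, fun s hs => ?_, fun s hs => ?_⟩,
    fun t => rfl⟩⟩
  · rw [osup_apply, h₃ s (lt_of_lt_of_le hs (min_le_right _ _)),
      h₁ s (lt_of_lt_of_le hs (min_le_left _ _)), max_self]
  · rw [osup_apply, h₄ s (lt_of_le_of_lt (le_max_right _ _) hs),
      h₂ s (lt_of_le_of_lt (le_max_left _ _) hs), max_self]
  · rw [oinf_apply, h₃ s (lt_of_lt_of_le hs (min_le_right _ _)),
      h₁ s (lt_of_lt_of_le hs (min_le_left _ _)), min_self]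
  · rw [oinf_apply, h₄ s (lt_of_le_of_lt (le_max_right _ _) hs),
      h₂ s (lt_of_le_of_lt (le_max_left _ _) hs), min_self]

theorem BT_trans : TwoTransitive (BT ℚ ⟨0⟩) := by
  intro r₁ r₂ s₁ s₂ hr hs
  obtain ⟨f, hf, h⟩ := LL_twoTransitive (K := ℚ) r₁ r₂ s₁ s₂ hr hs
  exact ⟨f, hf.1, h⟩

/-- the ultraproduct of a group of automorphisms -/
def UP {I : Type} (V : Ultrafilter I) {T : Type} [LinearOrder T] (L : Subgroup (T ≃o T)) :
    Subgroup (Germ (V : Filter I) T ≃o Germ (V : Filter I) T) where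
  carrier := {f | ∃ F : I → (T ≃o T), (∀ i, F i ∈ L) ∧ f = ap V F}
  one_mem' := ⟨fun _ => 1, fun _ => L.one_mem, ap_one.symm⟩
  mul_mem' := by
    rintro f g ⟨F, hF, rfl⟩ ⟨G, hG, rfl⟩
    exact ⟨fun n => F n * G n, fun n => L.mul_mem (hF n) (hG n), (ap_mul F G).symm⟩
  inv_mem' := by
    rintro f ⟨F, hF, rfl⟩
    exact ⟨fun n => (F n)⁻¹, fun n => L.inv_mem (hF n), (ap_inv F).symm⟩

theorem UP_sublattice {I : Type} (V : Ultrafilter I) {T : Type} [LinearOrder T]
    {L : Subgroup (T ≃o T)} (hL : IsSublatticeOf L) : IsSublatticeOf (UP V L) := by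
  rintro f ⟨F, hF, rfl⟩ g ⟨G, hG, rfl⟩
  choose H hH hH' using fun n => (hL (F n) (hF n) (G n) (hG n)).1
  choose H1 hH1 hH1' using fun n => (hL (F n) (hF n) (G n) (hG n)).2
  exact ⟨⟨ap V H, ⟨H, hH, rfl⟩, fun x => ap_max (Eventually.of_forall hH') x⟩,
    ⟨ap V H1, ⟨H1, hH1, rfl⟩, fun x => ap_min (Eventually.of_forall hH1') x⟩⟩

theorem UP_trans {I : Type} (V : Ultrafilter I) {T : Type} [LinearOrder T]
    {L : Subgroup (T ≃o T)} (hL : TwoTransitive L) : TwoTransitive (UP V L) := by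
  intro r₁ r₂ s₁ s₂ hr hs
  obtain ⟨F, hF, h3, h4⟩ := ap_trans hL r₁ r₂ s₁ s₂ hr hs
  exact ⟨_, ⟨F, hF, rfl⟩, h3, h4⟩

theorem UP_bdd {I : Type} (V : Ultrafilter I) {T : Type} [LinearOrder T]
    {L : Subgroup (T ≃o T)} (hL : BoundedSupport L) : BoundedSupport (UP V L) := by
  rintro f ⟨F, hF, rfl⟩
  exact ap_bdd hL F hF

/-- the group `L` has the properties of the problem: sublattice, 2-transitive, bounded, every
strictly positive element splits -/
structure Nice {T : Type} [LinearOrder T] (L : Subgroup (T ≃o T)) : Prop where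
  lat : IsSublatticeOf L
  tra : TwoTransitive L
  bdd : BoundedSupport L
  split : ∀ f ∈ L, (∀ t, t ≤ f t) → f ≠ 1 → ∃ f₁ ∈ L, ∃ f₂ ∈ L, f₁ ≠ 1 ∧ f₂ ≠ 1 ∧
      (∀ t, min (f₁ t) (f₂ t) = t) ∧ (∀ t, max (f₁ t) (f₂ t) = f t)

/-- an embedding of a lattice-ordered group -/
structure Emb {G : Type} [Group G] [Lattice G] {T : Type} [LinearOrder T] (L : Subgroup (T ≃o T))
    (φ : G →* (T ≃o T)) : Prop where
  mem : ∀ g, φ g ∈ L
  inj : ∀ g, g ≠ 1 → φ g ≠ 1
  sup : ∀ (a b : G) (t : T), φ (a ⊔ b) t = max (φ a t) (φ b t)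
  inf : ∀ (a b : G) (t : T), φ (a ⊓ b) t = min (φ a t) (φ b t)

/-- from a 2-transitive bounded group to one without l-primes -/
theorem step {G : Type} [Group G] [Lattice G] {T : Type} [LinearOrder T] [DenselyOrdered T]
    [NoMinOrder T] [NoMaxOrder T] (hne : Nonempty T) (L : Subgroup (T ≃o T))
    (h1 : IsSublatticeOf L) (h2 : TwoTransitive L) (h3 : BoundedSupport L)
    (φ : G →* (T ≃o T)) (hφ : Emb L φ) :
    Nice (LU L hne) ∧ ∃ φ' : G →* (St T ≃o St T), Emb (LU L hne) φ' := by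
  refine ⟨⟨LU_sublattice h1 hne, LU_trans h2 h3 hne, fun f hf => hf.1,
    fun f hf hpos hf1 => LU_no_lprime hne f hf hpos hf1⟩,
    ⟨⟨fun g => ap (hyperfilter ℕ) (fun _ => φ g), ?_⟩, ?_⟩, ?_, ?_, ?_, ?_⟩
  · rw [map_one]; exact ap_one
  · intro a b
    show ap (hyperfilter ℕ) (fun _ => φ (a * b)) = _
    rw [map_mul]
    exact ap_mul _ _
  · intro g
    exact ap_mem_LU h3 hne _ (fun _ => hφ.mem g)
  · intro g hg
    exact ap_ne_one (Eventually.of_forall fun _ => hφ.inj g hg)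
  · intro a b t
    exact ap_max (Eventually.of_forall fun _ => hφ.sup a b) t
  · intro a b t
    exact ap_min (Eventually.of_forall fun _ => hφ.inf a b) t

theorem countable_closure {G : Type} [Group G] (s : Set G) (hs : s.Countable) :
    ((Subgroup.closure s : Subgroup G) : Set G).Countable := by
  have h1 : Countable s := hs.to_subtype
  have h2 : Countable (FreeGroup s) := inferInstanceAs (Countable (Quot _))
  rw [FreeGroup.closure_eq_range]
  exact Set.countable_range _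

/-- Every lattice-ordered group embeds into a 2-transitive lattice-ordered group of bounded
automorphisms of a dense chain. -/
theorem comp (G : Type) [Group G] [Lattice G] [MulLeftMono G] [MulRightMono G] :
    ∃ (T : Type) (_ : LinearOrder T), Nonempty T ∧ DenselyOrdered T ∧ NoMinOrder T ∧
      NoMaxOrder T ∧ ∃ L : Subgroup (T ≃o T), IsSublatticeOf L ∧ TwoTransitive L ∧
        BoundedSupport L ∧ ∃ φ : G →* (T ≃o T), Emb L φ := by
  classical
  obtain ⟨Ω, LO, ρ, r1, r2, r3⟩ := holland_faithful G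
  have hfin : ∀ s : Finset G, ((Subgroup.closure (s : Set G) : Subgroup G) : Set G).Countable :=
    fun s => countable_closure _ s.countable_toSet
  choose ψ p1 p2 p3 p4 p5 using fun s : Finset G =>
    rep ρ r1 r2 r3 (Subgroup.closure (s : Set G)) (hfin s)
  let V : Ultrafilter (Finset G) := Ultrafilter.of atTop
  have hV : ∀ g : G, ∀ᶠ s : Finset G in (V : Filter (Finset G)),
      g ∈ Subgroup.closure (s : Set G) := by
    intro g
    have h1 : ∀ᶠ s : Finset G in (atTop : Filter (Finset G)),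
        g ∈ Subgroup.closure (s : Set G) := by
      filter_upwards [eventually_ge_atTop ({g} : Finset G)] with s hs
      exact Subgroup.subset_closure (hs (Finset.mem_singleton_self g))
    exact Ultrafilter.of_le _ h1
  have hB : ∀ s g, ψ s g ∈ BT ℚ ⟨0⟩ := by
    intro s g
    obtain ⟨t₁, t₂, h⟩ := p5 s
    exact ⟨t₁, t₂, (h g).1, (h g).2⟩
  have hmul : ∀ a b : G, ap V (fun s => ψ s (a * b)) =
      ap V (fun s => ψ s a) * ap V (fun s => ψ s b) := by
    intro a b
    rw [← ap_mul]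
    apply ap_congr
    filter_upwards [hV a, hV b] with s h1 h2
    exact p1 s a h1 b h2
  have hone : ap V (fun s => ψ s (1 : G)) = 1 := by
    have h := hmul 1 1
    rw [mul_one] at h
    exact left_eq_mul.1 h
  refine ⟨Germ (V : Filter (Finset G)) ℚ, inferInstance, ⟨0⟩, inferInstance, inferInstance,
    inferInstance, UP V (BT ℚ ⟨0⟩), UP_sublattice V (BT_sublattice ℚ ⟨0⟩), UP_trans V BT_trans,
    UP_bdd V (fun f hf => hf), ⟨⟨fun g => ap V (fun s => ψ s g), hone⟩, hmul⟩, ?_, ?_, ?_, ?_⟩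
  · intro g
    exact ⟨_, fun s => hB s g, rfl⟩
  · intro g hg
    apply ap_ne_one
    filter_upwards [hV g] with s h1
    exact p4 s g h1 hg
  · intro a b t
    apply ap_max
    filter_upwards [hV a, hV b, hV (a ⊔ b)] with s h1 h2 h3
    exact p2 s a h1 b h2 h3
  · intro a b t
    apply ap_min
    filter_upwards [hV a, hV b, hV (a ⊓ b)] with s h1 h2 h3
    exact p3 s a h1 b h2 h3

/-- Every lattice-ordered group embeds into a 2-transitive lattice-ordered group of bounded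
automorphisms of a chain without l-primes. -/
theorem every (G : Type) [Group G] [Lattice G] [MulLeftMono G] [MulRightMono G] :
    ∃ (T : Type) (_ : LinearOrder T), Nonempty T ∧ DenselyOrdered T ∧ NoMinOrder T ∧
      NoMaxOrder T ∧ ∃ L : Subgroup (T ≃o T), Nice L ∧ ∃ φ : G →* (T ≃o T), Emb L φ := by
  obtain ⟨T, LO, hne, hd, hmin, hmax, L, h1, h2, h3, φ, hφ⟩ := comp G
  obtain ⟨h4, φ', h5⟩ := step hne L h1 h2 h3 φ hφ
  have hrep : ∀ x : St T, ∃ f : ℕ → T, (f : St T) = x := by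
    intro x
    exact Germ.inductionOn x (fun f => ⟨f, rfl⟩)
  refine ⟨St T, inferInstance, ?_, ⟨?_⟩, ⟨?_⟩, ⟨?_⟩, LU L hne, h4, φ', h5⟩
  · obtain ⟨x⟩ := hne
    exact ⟨((fun _ => x : ℕ → T) : St T)⟩
  · intro a b hab
    obtain ⟨c, hc⟩ := eta (fun _ => a) (fun _ => b) (fun _ _ => hab)
    exact ⟨c, (hc 0).1, (hc 0).2⟩
  · intro a
    obtain ⟨x, rfl⟩ := hrep a
    choose y hy using fun n => exists_lt (x n)
    exact ⟨(y : St T), Germ.coe_lt.2 (Eventually.of_forall hy)⟩
  · intro a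
    obtain ⟨x, rfl⟩ := hrep a
    choose y hy using fun n => exists_gt (x n)
    exact ⟨(y : St T), Germ.coe_lt.2 (Eventually.of_forall hy)⟩

end Pool.Agent.Y29.LP
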