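import Mathlib

/-!
Ultraproducts of automorphism groups of a chain, and countable saturation.
-/

namespace Pool.Agent.Y29.LP

open Filter

section act

variable {I : Type} {U : Ultrafilter I} {T : Type} [LinearOrder T]

/-- the automorphism of the ultrapower given by a family of automorphisms -/
noncomputable def ap (U : Ultrafilter I) (F : I → (T ≃o T)) :
    Germ (U : Filter I) T ≃o Germ (U : Filter I) T where
  toFun := fun x => Germ.map₂ (fun (f : T ≃o T) t => f t) (F : Germ (U : Filter I) (T ≃o T)) x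
  invFun := fun x => Germ.map₂ (fun (f : T ≃o T) t => f.symm t)
    (F : Germ (U : Filter I) (T ≃o T)) x
  left_inv := by
    intro x
    induction x using Germ.inductionOn with
    | h x =>
      show ((fun n => (F n).symm (F n (x n)) : I → T) : Germ (U : Filter I) T) = x
      simp
  right_inv := by
    intro x
    induction x using Germ.inductionOn with
    | h x =>
      show ((fun n => F n ((F n).symm (x n)) : I → T) : Germ (U : Filter I) T) = x
      simp
  map_rel_iff' := by
    intro x y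
    induction x using Germ.inductionOn with
    | h x =>
      induction y using Germ.inductionOn with
      | h y =>
        show ((fun n => F n (x n) : I → T) : Germ (U : Filter I) T) ≤ ((fun n => F n (y n) : I → T) :
          Germ (U : Filter I) T) ↔ _
        rw [Germ.coe_le, Germ.coe_le]
        simp [EventuallyLE]

theorem ap_coe (F : I → (T ≃o T)) (x : I → T) :
    ap U F (x : Germ (U : Filter I) T) = ((fun n => F n (x n) : I → T) : Germ (U : Filter I) T) :=
  rfl

theorem ap_one : ap U (fun _ => (1 : T ≃o T)) = 1 := by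
  ext x
  induction x using Germ.inductionOn with
  | h x => rfl

theorem ap_mul (F G : I → (T ≃o T)) : ap U (fun n => F n * G n) = ap U F * ap U G := by
  ext x
  induction x using Germ.inductionOn with
  | h x => rfl

theorem ap_inv (F : I → (T ≃o T)) : ap U (fun n => (F n)⁻¹) = (ap U F)⁻¹ := by
  ext x
  induction x using Germ.inductionOn with
  | h x => rfl

theorem ap_congr {F G : I → (T ≃o T)} (h : ∀ᶠ n in (U : Filter I), F n = G n) :
    ap U F = ap U G := by
  ext x
  induction x using Germ.inductionOn with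
  | h x =>
    rw [ap_coe, ap_coe]
    apply Germ.coe_eq.2
    filter_upwards [h] with n hn
    rw [hn]

theorem ap_max {F G H : I → (T ≃o T)} (h : ∀ᶠ n in (U : Filter I), ∀ t, H n t = max (F n t) (G n t))
    (x : Germ (U : Filter I) T) : ap U H x = max (ap U F x) (ap U G x) := by
  induction x using Germ.inductionOn with
  | h x =>
    rw [ap_coe, ap_coe, ap_coe]
    rcases le_total (((fun n => F n (x n) : I → T) : Germ (U : Filter I) T))
      (((fun n => G n (x n) : I → T) : Germ (U : Filter I) T)) with h1 | h1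
    · rw [max_eq_right h1]
      apply Germ.coe_eq.2
      filter_upwards [h, Germ.coe_le.1 h1] with n hn hn1
      rw [hn, max_eq_right hn1]
    · rw [max_eq_left h1]
      apply Germ.coe_eq.2
      filter_upwards [h, Germ.coe_le.1 h1] with n hn hn1
      rw [hn, max_eq_left hn1]

theorem ap_min {F G H : I → (T ≃o T)} (h : ∀ᶠ n in (U : Filter I), ∀ t, H n t = min (F n t) (G n t))
    (x : Germ (U : Filter I) T) : ap U H x = min (ap U F x) (ap U G x) := by
  induction x using Germ.inductionOn with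
  | h x =>
    rw [ap_coe, ap_coe, ap_coe]
    rcases le_total (((fun n => F n (x n) : I → T) : Germ (U : Filter I) T))
      (((fun n => G n (x n) : I → T) : Germ (U : Filter I) T)) with h1 | h1
    · rw [min_eq_left h1]
      apply Germ.coe_eq.2
      filter_upwards [h, Germ.coe_le.1 h1] with n hn hn1
      rw [hn, min_eq_left hn1]
    · rw [min_eq_right h1]
      apply Germ.coe_eq.2
      filter_upwards [h, Germ.coe_le.1 h1] with n hn hn1
      rw [hn, min_eq_right hn1]

theorem ap_ne_one {F : I → (T ≃o T)} (h : ∀ᶠ n in (U : Filter I), F n ≠ 1) : ap U F ≠ 1 := by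
  classical
  intro h1
  have h2 : ∀ n, ∃ x : T, F n ≠ 1 → F n x ≠ x := by
    intro n
    by_cases hn : ∀ x, F n x = x
    · by_cases he : Nonempty T
      · obtain ⟨x⟩ := he
        exact ⟨x, fun h3 => absurd (by ext y; exact hn y) h3⟩
      · exfalso
        obtain ⟨n, hn⟩ := h.exists
        apply hn
        ext y
        exact absurd ⟨y⟩ he
    · push Not at hn
      obtain ⟨x, hx⟩ := hn
      exact ⟨x, fun _ => hx⟩
  choose x hx using h2
  have h3 : ap U F (x : Germ (U : Filter I) T) = (x : Germ (U : Filter I) T) := by rw [h1]; rfl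
  rw [ap_coe, Germ.coe_eq] at h3
  obtain ⟨n, hn, hn'⟩ := (h.and h3).exists
  exact hx n hn hn'

/-- ultraproducts of 2-transitive groups are 2-transitive -/
theorem ap_trans {L : Subgroup (T ≃o T)}
    (hL : ∀ r₁ r₂ s₁ s₂ : T, r₁ < r₂ → s₁ < s₂ → ∃ f ∈ L, f r₁ = s₁ ∧ f r₂ = s₂)
    (r₁ r₂ s₁ s₂ : Germ (U : Filter I) T) (hr : r₁ < r₂) (hs : s₁ < s₂) :
    ∃ F : I → (T ≃o T), (∀ n, F n ∈ L) ∧ ap U F r₁ = s₁ ∧ ap U F r₂ = s₂ := by
  classical
  induction r₁ using Germ.inductionOn with
  | h r₁ =>
  induction r₂ using Germ.inductionOn with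
  | h r₂ =>
  induction s₁ using Germ.inductionOn with
  | h s₁ =>
  induction s₂ using Germ.inductionOn with
  | h s₂ =>
  have h1 : ∀ n, ∃ f ∈ L, (r₁ n < r₂ n → s₁ n < s₂ n → f (r₁ n) = s₁ n ∧ f (r₂ n) = s₂ n) := by
    intro n
    by_cases h2 : r₁ n < r₂ n ∧ s₁ n < s₂ n
    · obtain ⟨f, hf, h3⟩ := hL _ _ _ _ h2.1 h2.2
      exact ⟨f, hf, fun _ _ => h3⟩
    · exact ⟨1, L.one_mem, fun h3 h4 => absurd ⟨h3, h4⟩ h2⟩
  choose F hF hF' using h1
  have h5 := Germ.coe_lt.1 hr
  have h6 := Germ.coe_lt.1 hs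
  refine ⟨F, hF, ?_, ?_⟩
  · rw [ap_coe]
    apply Germ.coe_eq.2
    filter_upwards [h5, h6] with n h7 h8
    exact (hF' n h7 h8).1
  · rw [ap_coe]
    apply Germ.coe_eq.2
    filter_upwards [h5, h6] with n h7 h8
    exact (hF' n h7 h8).2

/-- ultraproducts of groups of bounded automorphisms are of bounded support -/
theorem ap_bdd {L : Subgroup (T ≃o T)}
    (hL : ∀ f ∈ L, ∃ t₁ t₂ : T, (∀ s, s < t₁ → f s = s) ∧ (∀ s, t₂ < s → f s = s))
    (F : I → (T ≃o T)) (hF : ∀ n, F n ∈ L) :
    ∃ t₁ t₂ : Germ (U : Filter I) T, (∀ s, s < t₁ → ap U F s = s) ∧ (∀ s, t₂ < s → ap U F s = s) := by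
  choose t₁ t₂ h1 h2 using fun n => hL (F n) (hF n)
  refine ⟨t₁, t₂, ?_, ?_⟩
  · intro s hs
    induction s using Germ.inductionOn with
    | h s =>
      rw [ap_coe]
      apply Germ.coe_eq.2
      filter_upwards [Germ.coe_lt.1 hs] with n hn
      exact h1 n _ hn
  · intro s hs
    induction s using Germ.inductionOn with
    | h s =>
      rw [ap_coe]
      apply Germ.coe_eq.2
      filter_upwards [Germ.coe_lt.1 hs] with n hn
      exact h2 n _ hn

end act

section sat

/-- countable saturation of ultrapowers over `ℕ` -/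
theorem sat {X : Type} (P : ℕ → ℕ → X → Prop)
    (h : ∀ K, ∀ᶠ n in (hyperfilter ℕ : Filter ℕ), ∃ x, ∀ k < K, P k n x) :
    ∃ x : ℕ → X, ∀ k, ∀ᶠ n in (hyperfilter ℕ : Filter ℕ), P k n (x n) := by
  classical
  let Q : ℕ → ℕ → Prop := fun n N => ∃ x, ∀ k < N, P k n x
  obtain ⟨n0, x0, -⟩ := (h 0).exists
  have hQ0 : ∀ n, Q n 0 := fun n => ⟨x0, fun k hk => absurd hk (Nat.not_lt_zero k)⟩
  have hN : ∀ n, Q n (Nat.findGreatest (Q n) n) := fun n =>
    Nat.findGreatest_spec (P := Q n) (Nat.zero_le n) (hQ0 n)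
  choose x hx using hN
  refine ⟨x, fun k => ?_⟩
  have h4 : ∀ᶠ n in (hyperfilter ℕ : Filter ℕ), k + 1 ≤ n :=
    Nat.hyperfilter_le_atTop (eventually_ge_atTop (k + 1))
  filter_upwards [h (k + 1), h4] with n hn hn'
  exact hx n k (Nat.lt_of_lt_of_le (Nat.lt_succ_self k) (Nat.le_findGreatest hn' hn))

variable {T : Type} [LinearOrder T]

/-- the ultrapower of a dense chain without endpoints fills all countable gaps -/
theorem eta [DenselyOrdered T] [NoMinOrder T] [NoMaxOrder T] [Nonempty T]
    (a b : ℕ → Germ (hyperfilter ℕ : Filter ℕ) T) (hab : ∀ i j, a i < b j) :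
    ∃ c, ∀ i, a i < c ∧ c < b i := by
  classical
  have hrep : ∀ x : Germ (hyperfilter ℕ : Filter ℕ) T,
      ∃ f : ℕ → T, (f : Germ (hyperfilter ℕ : Filter ℕ) T) = x := by
    intro x
    exact Germ.inductionOn x (fun f => ⟨f, rfl⟩)
  choose α hα using fun i => hrep (a i)
  choose β hβ using fun i => hrep (b i)
  have h1 : ∀ i j, ∀ᶠ n in (hyperfilter ℕ : Filter ℕ), α i n < β j n := by
    intro i j
    have h := hab i j
    rw [← hα i, ← hβ j] at h
    exact Germ.coe_lt.1 h
  obtain ⟨c, hc⟩ := sat (fun k n (x : T) => α k n < x ∧ x < β k n) (by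
    intro K
    have h3 : ∀ᶠ n in (hyperfilter ℕ : Filter ℕ), ∀ k ∈ Finset.range K,
        ∀ l ∈ Finset.range K, α k n < β l n := by
      rw [eventually_all_finset]
      intro k _
      rw [eventually_all_finset]
      intro l _
      exact h1 k l
    filter_upwards [h3] with n hn
    obtain ⟨c, hc1, hc2⟩ := Finset.exists_between'
      ((Finset.range K).image (fun i => α i n))
      ((Finset.range K).image (fun i => β i n)) (by
        intro x hx y hy
        rw [Finset.mem_image] at hx hy
        obtain ⟨i, hi, rfl⟩ := hx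
        obtain ⟨j, hj, rfl⟩ := hy
        exact hn i hi j hj)
    exact ⟨c, fun i hi => ⟨hc1 _ (Finset.mem_image_of_mem _ (Finset.mem_range.2 hi)),
      hc2 _ (Finset.mem_image_of_mem _ (Finset.mem_range.2 hi))⟩⟩)
  refine ⟨(c : Germ (hyperfilter ℕ : Filter ℕ) T), fun i => ?_⟩
  constructor
  · rw [← hα i]
    exact Germ.coe_lt.2 ((hc i).mono fun n hn => hn.1)
  · rw [← hβ i]
    exact Germ.coe_lt.2 ((hc i).mono fun n hn => hn.2)

/-- overspill: an internal map which moves up all terms (from some one on) of a decreasing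
sequence moves up some element between the sequence and any lower bound -/
theorem overspill (F : ℕ → (T ≃o T)) (b : ℕ → Germ (hyperfilter ℕ : Filter ℕ) T)
    (hb : StrictAnti b) (a : Germ (hyperfilter ℕ : Filter ℕ) T) (ha : ∀ k, a < b k) (m : ℕ)
    (hm : ∀ k, m ≤ k → b k < ap (hyperfilter ℕ) F (b k)) :
    ∃ v, a < v ∧ (∀ k, v < b k) ∧ v < ap (hyperfilter ℕ) F v := by
  classical
  have hrep : ∀ x : Germ (hyperfilter ℕ : Filter ℕ) T,
      ∃ f : ℕ → T, (f : Germ (hyperfilter ℕ : Filter ℕ) T) = x := by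
    intro x
    exact Germ.inductionOn x (fun f => ⟨f, rfl⟩)
  choose β hβ using fun i => hrep (b i)
  obtain ⟨α, hα⟩ := hrep a
  obtain ⟨c, hc⟩ := sat (fun k n (x : T) => α n < x ∧ x < β k n ∧ x < F n x) (by
    intro K
    have h3 : ∀ᶠ n in (hyperfilter ℕ : Filter ℕ), ∀ k ∈ Finset.range K,
        β (max K m) n < β k n := by
      rw [eventually_all_finset]
      intro k hk
      have h := hb (lt_of_lt_of_le (Finset.mem_range.1 hk) (le_max_left K m))
      rw [← hβ, ← hβ k] at h
      exact Germ.coe_lt.1 h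
    have h4 : ∀ᶠ n in (hyperfilter ℕ : Filter ℕ), α n < β (max K m) n := by
      have h := ha (max K m)
      rw [← hβ, ← hα] at h
      exact Germ.coe_lt.1 h
    have h5 : ∀ᶠ n in (hyperfilter ℕ : Filter ℕ), β (max K m) n < F n (β (max K m) n) := by
      have h := hm (max K m) (le_max_right K m)
      rw [← hβ] at h
      exact Germ.coe_lt.1 h
    filter_upwards [h3, h4, h5] with n h6 h7 h8
    exact ⟨β (max K m) n, fun k hk => ⟨h7, h6 k (Finset.mem_range.2 hk), h8⟩⟩)
  refine ⟨(c : Germ (hyperfilter ℕ : Filter ℕ) T), ?_, fun k => ?_, ?_⟩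
  · rw [← hα]
    exact Germ.coe_lt.2 ((hc 0).mono fun n hn => hn.1)
  · rw [← hβ k]
    exact Germ.coe_lt.2 ((hc k).mono fun n hn => hn.2.1)
  · exact Germ.coe_lt.2 ((hc 0).mono fun n hn => hn.2.2)

end sat

end Pool.Agent.Y29.LP
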