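import Pool.Agent.Y29.LP.Comp

/-!
The countable form: countable groups of automorphisms of the rational numbers.
-/

namespace Pool.Agent.Y29.LP

/-- closure of a countable set under countably many finitary operations -/
theorem closing {X : Type} (op : ℕ → List X → X) (C₀ : Set X) (h0 : C₀.Countable) :
    ∃ C : Set X, C₀ ⊆ C ∧ C.Countable ∧ ∀ k l, (∀ x ∈ l, x ∈ C) → op k l ∈ C := by
  let nx : Set X → Set X := fun C =>
    C ∪ Set.range (fun p : ℕ × List C => op p.1 (p.2.map Subtype.val))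
  let C : ℕ → Set X := fun n => Nat.rec C₀ (fun _ D => nx D) n
  have hc : ∀ n, (C n).Countable := by
    intro n
    induction n with
    | zero => exact h0
    | succ n ih =>
      have := ih.to_subtype
      exact ih.union (Set.countable_range _)
  have hmono : Monotone C := monotone_nat_of_le_succ (fun n => Set.subset_union_left)
  refine ⟨⋃ n, C n, Set.subset_iUnion C 0, Set.countable_iUnion hc, ?_⟩
  intro k l hl
  have h1 : ∃ N, ∀ x ∈ l, x ∈ C N := by
    clear * - hl hmono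
    induction l with
    | nil => exact ⟨0, fun x hx => absurd hx (List.not_mem_nil)⟩
    | cons a l ih =>
      obtain ⟨N, hN⟩ := ih (fun x hx => hl x (List.mem_cons_of_mem _ hx))
      obtain ⟨M, hM⟩ := Set.mem_iUnion.1 (hl a List.mem_cons_self)
      refine ⟨max M N, fun x hx => ?_⟩
      rcases List.mem_cons.1 hx with rfl | hx
      · exact hmono (le_max_left _ _) hM
      · exact hmono (le_max_right _ _) (hN x hx)
  obtain ⟨N, hN⟩ := h1
  refine Set.mem_iUnion.2 ⟨N + 1, Or.inr ⟨(k, l.attach.map (fun x => ⟨x.1, hN x.1 x.2⟩)), ?_⟩⟩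
  simp

/-- the witnesses -/
structure Data {T : Type} [LinearOrder T] (L : Subgroup (T ≃o T)) where
  x0 : T
  tr : T → T → T → T → L
  t₁ : L → T
  t₂ : L → T
  mv : L → T
  c₁ : L → L
  c₂ : L → L
  sp : L → L → L
  nf : L → L → L
  mid : T → T → T
  lo : T → T
  hi : T → T

/-- all operations -/
def op {T : Type} [LinearOrder T] {L : Subgroup (T ≃o T)} (D : Data L) :
    ℕ → List (T ⊕ L) → T ⊕ L
  | 0, [.inr f, .inl a] => .inl (f.1 a)
  | 1, [.inr f, .inr g] => .inr (f * g)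
  | 2, [.inr f] => .inr f⁻¹
  | 3, [.inr f, .inr g] => .inr (D.sp f g)
  | 4, [.inr f, .inr g] => .inr (D.nf f g)
  | 5, [.inl a, .inl b, .inl c, .inl d] => .inr (D.tr a b c d)
  | 6, [.inr f] => .inl (D.t₁ f)
  | 7, [.inr f] => .inl (D.t₂ f)
  | 8, [.inr f] => .inr (D.c₁ f)
  | 9, [.inr f] => .inr (D.c₂ f)
  | 10, [.inr f] => .inl (D.mv f)
  | 11, [.inl a, .inl b] => .inl (D.mid a b)
  | 12, [.inl a] => .inl (D.lo a)
  | 13, [.inl a] => .inl (D.hi a)
  | _, _ => .inl D.x0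

/-- downward Loewenheim-Skolem: a countable lattice-ordered group which embeds into a nice group
embeds into a countable nice group of automorphisms of `ℚ` -/
theorem ls {G : Type} [Group G] [Lattice G] [Countable G] {T : Type} [LinearOrder T]
    [DenselyOrdered T] [NoMinOrder T] [NoMaxOrder T] (hne : Nonempty T) (L : Subgroup (T ≃o T))
    (hL : Nice L) (φ : G →* (T ≃o T)) (hφ : Emb L φ) :
    ∃ L' : Subgroup (ℚ ≃o ℚ), (L' : Set (ℚ ≃o ℚ)).Countable ∧ Nice L' ∧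
      ∃ φ' : G →* (ℚ ≃o ℚ), Emb L' φ' := by
  classical
  obtain ⟨x0⟩ := hne
  have w1 : ∀ a b c d : T, ∃ f : L, a < b → c < d → f.1 a = c ∧ f.1 b = d := by
    intro a b c d
    by_cases h : a < b ∧ c < d
    · obtain ⟨f, hf, h'⟩ := hL.tra a b c d h.1 h.2
      exact ⟨⟨f, hf⟩, fun _ _ => h'⟩
    · exact ⟨1, fun h1 h2 => absurd ⟨h1, h2⟩ h⟩
  choose tr htr using w1
  choose t₁ t₂ ht₁ ht₂ using fun f : L => hL.bdd f.1 f.2
  have w2 : ∀ f : L, ∃ x : T, f ≠ 1 → f.1 x ≠ x := by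
    intro f
    by_cases h : f = 1
    · exact ⟨x0, fun h' => absurd h h'⟩
    · by_contra hcon
      push Not at hcon
      apply h
      apply Subtype.ext
      ext x
      exact (hcon x).2
  choose mv hmv using w2
  have w3 : ∀ f : L, ∃ c₁ c₂ : L, (∀ t, t ≤ f.1 t) → f ≠ 1 → c₁ ≠ 1 ∧ c₂ ≠ 1 ∧
      (∀ t, min (c₁.1 t) (c₂.1 t) = t) ∧ (∀ t, max (c₁.1 t) (c₂.1 t) = f.1 t) := by
    intro f
    by_cases h : (∀ t, t ≤ f.1 t) ∧ f ≠ 1
    · obtain ⟨f₁, h1, f₂, h2, h3, h4, h5, h6⟩ := hL.split f.1 f.2 h.1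
        (fun h' => h.2 (Subtype.ext h'))
      exact ⟨⟨f₁, h1⟩, ⟨f₂, h2⟩, fun _ _ => ⟨fun h' => h3 (congrArg Subtype.val h'),
        fun h' => h4 (congrArg Subtype.val h'), h5, h6⟩⟩
    · exact ⟨1, 1, fun h1 h2 => absurd ⟨h1, h2⟩ h⟩
  choose c₁ c₂ hc using w3
  have w4 : ∀ f g : L, ∃ h : L, ∀ t, h.1 t = max (f.1 t) (g.1 t) := by
    intro f g
    obtain ⟨h, hh, h'⟩ := (hL.lat f.1 f.2 g.1 g.2).1
    exact ⟨⟨h, hh⟩, h'⟩
  choose sp hsp using w4
  have w5 : ∀ f g : L, ∃ h : L, ∀ t, h.1 t = min (f.1 t) (g.1 t) := by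
    intro f g
    obtain ⟨h, hh, h'⟩ := (hL.lat f.1 f.2 g.1 g.2).2
    exact ⟨⟨h, hh⟩, h'⟩
  choose nf hnf using w5
  have w6 : ∀ a b : T, ∃ c, a < b → a < c ∧ c < b := by
    intro a b
    by_cases h : a < b
    · obtain ⟨c, hc⟩ := exists_between h
      exact ⟨c, fun _ => hc⟩
    · exact ⟨x0, fun h' => absurd h' h⟩
  choose mid hmid using w6
  choose lo hlo using fun a : T => exists_lt a
  choose hi hhi using fun a : T => exists_gt a
  let D : Data L := ⟨x0, tr, t₁, t₂, mv, c₁, c₂, sp, nf, mid, lo, hi⟩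
  obtain ⟨C, hC0, hCc, hC⟩ := closing (op D)
    (Set.range (fun g : G => (Sum.inr ⟨φ g, hφ.mem g⟩ : T ⊕ L)) ∪ {Sum.inl x0})
    ((Set.countable_range _).union (Set.countable_singleton _))
  let A : Set T := {a | (Sum.inl a : T ⊕ L) ∈ C}
  have hAc : A.Countable := hCc.preimage Sum.inl_injective
  have hx0 : x0 ∈ A := hC0 (Or.inr rfl)
  have hφC : ∀ g, (Sum.inr ⟨φ g, hφ.mem g⟩ : T ⊕ L) ∈ C := fun g => hC0 (Or.inl ⟨g, rfl⟩)
  have q0 : ∀ (f : L) (a : T), (Sum.inr f : T ⊕ L) ∈ C → a ∈ A → f.1 a ∈ A := by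
    intro f a hf ha
    exact hC 0 [.inr f, .inl a] (by simp [hf]; exact ha)
  have q1 : ∀ (f g : L), (Sum.inr f : T ⊕ L) ∈ C → (Sum.inr g : T ⊕ L) ∈ C →
      (Sum.inr (f * g) : T ⊕ L) ∈ C := by
    intro f g hf hg
    exact hC 1 [.inr f, .inr g] (by simp [hf, hg])
  have q2 : ∀ (f : L), (Sum.inr f : T ⊕ L) ∈ C → (Sum.inr f⁻¹ : T ⊕ L) ∈ C := by
    intro f hf
    exact hC 2 [.inr f] (by simp [hf])
  have q3 : ∀ (f g : L), (Sum.inr f : T ⊕ L) ∈ C → (Sum.inr g : T ⊕ L) ∈ C →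
      (Sum.inr (sp f g) : T ⊕ L) ∈ C := by
    intro f g hf hg
    exact hC 3 [.inr f, .inr g] (by simp [hf, hg])
  have q4 : ∀ (f g : L), (Sum.inr f : T ⊕ L) ∈ C → (Sum.inr g : T ⊕ L) ∈ C →
      (Sum.inr (nf f g) : T ⊕ L) ∈ C := by
    intro f g hf hg
    exact hC 4 [.inr f, .inr g] (by simp [hf, hg])
  have q5 : ∀ (a b c d : T), a ∈ A → b ∈ A → c ∈ A → d ∈ A →
      (Sum.inr (tr a b c d) : T ⊕ L) ∈ C := by
    intro a b c d ha hb hc hd
    refine hC 5 [.inl a, .inl b, .inl c, .inl d] ?_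
    intro x hx
    simp only [List.mem_cons, List.not_mem_nil, or_false] at hx
    rcases hx with rfl | rfl | rfl | rfl
    · exact ha
    · exact hb
    · exact hc
    · exact hd
  have q6 : ∀ (f : L), (Sum.inr f : T ⊕ L) ∈ C → t₁ f ∈ A := by
    intro f hf
    exact hC 6 [.inr f] (by simp [hf])
  have q7 : ∀ (f : L), (Sum.inr f : T ⊕ L) ∈ C → t₂ f ∈ A := by
    intro f hf
    exact hC 7 [.inr f] (by simp [hf])
  have q8 : ∀ (f : L), (Sum.inr f : T ⊕ L) ∈ C → (Sum.inr (c₁ f) : T ⊕ L) ∈ C := by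
    intro f hf
    exact hC 8 [.inr f] (by simp [hf])
  have q9 : ∀ (f : L), (Sum.inr f : T ⊕ L) ∈ C → (Sum.inr (c₂ f) : T ⊕ L) ∈ C := by
    intro f hf
    exact hC 9 [.inr f] (by simp [hf])
  have q10 : ∀ (f : L), (Sum.inr f : T ⊕ L) ∈ C → mv f ∈ A := by
    intro f hf
    exact hC 10 [.inr f] (by simp [hf])
  have q11 : ∀ (a b : T), a ∈ A → b ∈ A → mid a b ∈ A := by
    intro a b ha hb
    refine hC 11 [.inl a, .inl b] ?_
    intro x hx
    simp only [List.mem_cons, List.not_mem_nil, or_false] at hx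
    rcases hx with rfl | rfl
    · exact ha
    · exact hb
  have q12 : ∀ (a : T), a ∈ A → lo a ∈ A := by
    intro a ha
    refine hC 12 [.inl a] ?_
    intro x hx
    simp only [List.mem_cons, List.not_mem_nil, or_false] at hx
    rw [hx]; exact ha
  have q13 : ∀ (a : T), a ∈ A → hi a ∈ A := by
    intro a ha
    refine hC 13 [.inl a] ?_
    intro x hx
    simp only [List.mem_cons, List.not_mem_nil, or_false] at hx
    rw [hx]; exact ha
  -- the chain
  have i1 : Countable A := hAc.to_subtype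
  have i2 : Nonempty A := ⟨⟨x0, hx0⟩⟩
  have i3 : DenselyOrdered A := ⟨fun a b hab => ⟨⟨mid a b, q11 _ _ a.2 b.2⟩,
    (hmid a b hab).1, (hmid a b hab).2⟩⟩
  have i4 : NoMinOrder A := ⟨fun a => ⟨⟨lo a, q12 _ a.2⟩, hlo a⟩⟩
  have i5 : NoMaxOrder A := ⟨fun a => ⟨⟨hi a, q13 _ a.2⟩, hhi a⟩⟩
  obtain ⟨e⟩ : Nonempty (A ≃o ℚ) := Order.iso_of_countable_dense _ _
  -- the countable subgroup
  let B : Subgroup L :=
    { carrier := {f | (Sum.inr f : T ⊕ L) ∈ C}
      one_mem' := by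
        have h := hφC 1
        have h1 : (⟨φ 1, hφ.mem 1⟩ : L) = 1 := Subtype.ext (map_one φ)
        rw [h1] at h
        exact h
      mul_mem' := fun {f g} hf hg => q1 f g hf hg
      inv_mem' := fun {f} hf => q2 f hf }
  have hBc : Countable B := (hCc.preimage (f := (Sum.inr : L → T ⊕ L)) Sum.inr_injective).to_subtype
  have hBA : ∀ (f : B) (a : T), a ∈ A → f.1.1 a ∈ A := fun f a ha => q0 f.1 a f.2 ha
  have hBA' : ∀ (f : B) (a : T), a ∈ A → f.1.1.symm a ∈ A := fun f a ha => hBA f⁻¹ a ha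
  let Φ : B →* (ℚ ≃o ℚ) :=
    { toFun := fun f => (e.symm.trans (res A f.1.1 (hBA f) (hBA' f))).trans e
      map_one' := by
        ext q
        show e (⟨e.symm q, _⟩ : A) = q
        exact e.apply_symm_apply q
      map_mul' := by
        intro f g
        ext q
        show e (⟨f.1.1 (g.1.1 (e.symm q)), _⟩ : A) =
          e (⟨f.1.1 (e.symm (e (⟨g.1.1 (e.symm q), _⟩ : A)) : A), _⟩ : A)
        congr 2
        rw [OrderIso.symm_apply_apply] }
  have hΦ : ∀ (f : B) (a : A), Φ f (e a) = e ⟨f.1.1 a, hBA f a a.2⟩ := by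
    intro f a
    show e (⟨f.1.1 (e.symm (e a) : A), _⟩ : A) = _
    congr 2
    rw [OrderIso.symm_apply_apply]
  have hΦ1 : ∀ f : B, f ≠ 1 → Φ f ≠ 1 := by
    intro f hf h
    have h1 : f.1 ≠ 1 := fun h' => hf (Subtype.ext h')
    have h2 := hΦ f ⟨mv f.1, q10 f.1 f.2⟩
    rw [h] at h2
    have h3 := congrArg Subtype.val (e.injective h2)
    exact hmv f.1 h1 h3.symm
  refine ⟨Φ.range, Set.countable_range Φ, ⟨?_, ?_, ?_, ?_⟩, Φ.comp
    ⟨⟨fun g => (⟨⟨φ g, hφ.mem g⟩, hφC g⟩ : B), ?_⟩, ?_⟩, ⟨?_, ?_, ?_, ?_⟩⟩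
  · -- lattice
    rintro _ ⟨f, rfl⟩ _ ⟨g, rfl⟩
    refine ⟨⟨Φ ⟨sp f.1 g.1, q3 _ _ f.2 g.2⟩, ⟨_, rfl⟩, fun t => ?_⟩,
      ⟨Φ ⟨nf f.1 g.1, q4 _ _ f.2 g.2⟩, ⟨_, rfl⟩, fun t => ?_⟩⟩
    · obtain ⟨a, rfl⟩ := e.surjective t
      rw [hΦ, hΦ, hΦ]
      rcases le_total (f.1.1 a) (g.1.1 a) with h | h
      · rw [max_eq_right (e.monotone h)]
        congr 2
        exact (hsp _ _ _).trans (max_eq_right h)
      · rw [max_eq_left (e.monotone h)]
        congr 2
        exact (hsp _ _ _).trans (max_eq_left h)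
    · obtain ⟨a, rfl⟩ := e.surjective t
      rw [hΦ, hΦ, hΦ]
      rcases le_total (f.1.1 a) (g.1.1 a) with h | h
      · rw [min_eq_left (e.monotone h)]
        congr 2
        exact (hnf _ _ _).trans (min_eq_left h)
      · rw [min_eq_right (e.monotone h)]
        congr 2
        exact (hnf _ _ _).trans (min_eq_right h)
  · -- 2-transitive
    intro r₁ r₂ s₁ s₂ hr hs
    obtain ⟨a₁, rfl⟩ := e.surjective r₁
    obtain ⟨a₂, rfl⟩ := e.surjective r₂
    obtain ⟨b₁, rfl⟩ := e.surjective s₁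
    obtain ⟨b₂, rfl⟩ := e.surjective s₂
    have h1 := htr a₁ a₂ b₁ b₂ (e.lt_iff_lt.1 hr) (e.lt_iff_lt.1 hs)
    refine ⟨Φ ⟨tr a₁ a₂ b₁ b₂, q5 _ _ _ _ a₁.2 a₂.2 b₁.2 b₂.2⟩, ⟨_, rfl⟩, ?_, ?_⟩
    · rw [hΦ]; congr 1; exact Subtype.ext h1.1
    · rw [hΦ]; congr 1; exact Subtype.ext h1.2
  · -- bounded
    rintro _ ⟨f, rfl⟩
    refine ⟨e ⟨t₁ f.1, q6 _ f.2⟩, e ⟨t₂ f.1, q7 _ f.2⟩, fun s hs => ?_, fun s hs => ?_⟩
    · obtain ⟨a, rfl⟩ := e.surjective s
      rw [hΦ]; congr 1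
      exact Subtype.ext (ht₁ f.1 a (e.lt_iff_lt.1 hs))
    · obtain ⟨a, rfl⟩ := e.surjective s
      rw [hΦ]; congr 1
      exact Subtype.ext (ht₂ f.1 a (e.lt_iff_lt.1 hs))
  · -- splitting
    rintro _ ⟨f, rfl⟩ hpos hne1
    have hfa : ∀ a : A, (a : T) ≤ f.1.1 a := by
      intro a
      have h := hpos (e a)
      rw [hΦ] at h
      exact e.le_iff_le.1 h
    have h1C : (Sum.inr (1 : L) : T ⊕ L) ∈ C := B.one_mem
    let f' : B := ⟨sp f.1 1, q3 _ _ f.2 h1C⟩
    have hf' : ∀ t, f'.1.1 t = max (f.1.1 t) t := hsp f.1 1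
    have hff : Φ f' = Φ f := by
      ext q
      obtain ⟨a, rfl⟩ := e.surjective q
      rw [hΦ, hΦ]
      congr 1
      exact Subtype.ext ((hf' a).trans (max_eq_left (hfa a)))
    have hf'1 : f'.1 ≠ 1 := by
      intro h
      apply hne1
      rw [← hff]
      have h2 : f' = 1 := Subtype.ext h
      rw [h2, map_one]
    obtain ⟨h1, h2, h3, h4⟩ := hc f'.1 (fun t => by rw [hf']; exact le_max_right _ _) hf'1
    refine ⟨Φ ⟨c₁ f'.1, q8 _ f'.2⟩, ⟨_, rfl⟩, Φ ⟨c₂ f'.1, q9 _ f'.2⟩, ⟨_, rfl⟩,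
      hΦ1 _ (fun h => h1 (congrArg Subtype.val h)), hΦ1 _ (fun h => h2 (congrArg Subtype.val h)),
      fun t => ?_, fun t => ?_⟩
    · obtain ⟨a, rfl⟩ := e.surjective t
      rw [hΦ, hΦ]
      have h5 := h3 a
      rcases le_total ((c₁ f'.1).1 a) ((c₂ f'.1).1 a) with h | h
      · rw [min_eq_left (e.monotone h)]
        congr 1
        rw [min_eq_left h] at h5
        exact Subtype.ext h5
      · rw [min_eq_right (e.monotone h)]
        congr 1
        rw [min_eq_right h] at h5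
        exact Subtype.ext h5
    · obtain ⟨a, rfl⟩ := e.surjective t
      rw [← hff, hΦ, hΦ, hΦ]
      have h5 := h4 a
      rcases le_total ((c₁ f'.1).1 a) ((c₂ f'.1).1 a) with h | h
      · rw [max_eq_right (e.monotone h)]
        congr 1
        rw [max_eq_right h] at h5
        exact Subtype.ext h5
      · rw [max_eq_left (e.monotone h)]
        congr 1
        rw [max_eq_left h] at h5
        exact Subtype.ext h5
  · apply Subtype.ext
    apply Subtype.ext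
    exact map_one φ
  · intro g g'
    apply Subtype.ext
    apply Subtype.ext
    exact map_mul φ g g'
  · intro g
    exact ⟨_, rfl⟩
  · intro g hg
    apply hΦ1
    intro h
    exact hφ.inj g hg (congrArg (fun x : B => x.1.1) h)
  · intro a b t
    obtain ⟨x, rfl⟩ := e.surjective t
    show Φ _ (e x) = max (Φ _ (e x)) (Φ _ (e x))
    rw [hΦ, hΦ, hΦ]
    have h5 := hφ.sup a b x
    rcases le_total (φ a x) (φ b x) with h | h
    · rw [max_eq_right (e.monotone h)]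
      congr 1
      rw [max_eq_right h] at h5
      exact Subtype.ext h5
    · rw [max_eq_left (e.monotone h)]
      congr 1
      rw [max_eq_left h] at h5
      exact Subtype.ext h5
  · intro a b t
    obtain ⟨x, rfl⟩ := e.surjective t
    show Φ _ (e x) = min (Φ _ (e x)) (Φ _ (e x))
    rw [hΦ, hΦ, hΦ]
    have h5 := hφ.inf a b x
    rcases le_total (φ a x) (φ b x) with h | h
    · rw [min_eq_left (e.monotone h)]
      congr 1
      rw [min_eq_left h] at h5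
      exact Subtype.ext h5
    · rw [min_eq_right (e.monotone h)]
      congr 1
      rw [min_eq_right h] at h5
      exact Subtype.ext h5

end Pool.Agent.Y29.LP
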