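import Pool.Agent.Y29.LP.Germ
import Pool.Agent.Results.MP_31a5b6_al.EtaOne

/-!
From a 2-transitive lattice-ordered group of bounded automorphisms to one without l-primes:
the automorphisms of the ultrapower which are internal just below every strictly decreasing
bounded sequence.
-/

namespace Pool.Agent.Y29.LP

open Filter
open Pool.Agent.Results.MP_31a5b6_al.EtaOne (IsSublatticeOf TwoTransitive BoundedSupport IsLPrime
  osup oinf osup_apply oinf_apply low low_apply high high_apply)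

variable {T : Type} [LinearOrder T]

/-- the ultrapower of the chain -/
abbrev St (T : Type) : Type := Germ (hyperfilter ℕ : Filter ℕ) T

/-- `f` is internal just below every strictly decreasing bounded sequence -/
def Loc (L : Subgroup (T ≃o T)) (f : St T ≃o St T) : Prop :=
  ∀ b : ℕ → St T, StrictAnti b → (∃ l, ∀ k, l < b k) →
    ∃ a, (∀ k, a < b k) ∧ ∃ m, ∃ F : ℕ → (T ≃o T), (∀ n, F n ∈ L) ∧
      ∀ x, a ≤ x → x ≤ b m → f x = ap (hyperfilter ℕ) F x

variable {L : Subgroup (T ≃o T)}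

theorem loc_ap (F : ℕ → (T ≃o T)) (hF : ∀ n, F n ∈ L) : Loc L (ap (hyperfilter ℕ) F) := by
  intro b _ ⟨l, hl⟩
  exact ⟨l, hl, 0, F, hF, fun x _ _ => rfl⟩

theorem loc_one : Loc L (1 : St T ≃o St T) := by
  have h := loc_ap (L := L) (fun _ => (1 : T ≃o T)) (fun _ => L.one_mem)
  rwa [ap_one] at h

theorem loc_max (hL : IsSublatticeOf L) {f g h : St T ≃o St T} (hf : Loc L f) (hg : Loc L g)
    (hh : ∀ x, h x = max (f x) (g x)) : Loc L h := by
  intro b hb hl
  obtain ⟨a₁, ha₁, m₁, F, hF, h₁⟩ := hf b hb hl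
  obtain ⟨a₂, ha₂, m₂, G, hG, h₂⟩ := hg b hb hl
  choose H hH hH' using fun n => (hL (F n) (hF n) (G n) (hG n)).1
  refine ⟨max a₁ a₂, fun k => max_lt (ha₁ k) (ha₂ k), max m₁ m₂, H, hH, fun x hx hx' => ?_⟩
  rw [hh, h₁ x (le_trans (le_max_left _ _) hx) (hx'.trans (hb.antitone (le_max_left _ _))),
    h₂ x (le_trans (le_max_right _ _) hx) (hx'.trans (hb.antitone (le_max_right _ _)))]
  exact (ap_max (Eventually.of_forall hH') x).symm

theorem loc_min (hL : IsSublatticeOf L) {f g h : St T ≃o St T} (hf : Loc L f) (hg : Loc L g)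
    (hh : ∀ x, h x = min (f x) (g x)) : Loc L h := by
  intro b hb hl
  obtain ⟨a₁, ha₁, m₁, F, hF, h₁⟩ := hf b hb hl
  obtain ⟨a₂, ha₂, m₂, G, hG, h₂⟩ := hg b hb hl
  choose H hH hH' using fun n => (hL (F n) (hF n) (G n) (hG n)).2
  refine ⟨max a₁ a₂, fun k => max_lt (ha₁ k) (ha₂ k), max m₁ m₂, H, hH, fun x hx hx' => ?_⟩
  rw [hh, h₁ x (le_trans (le_max_left _ _) hx) (hx'.trans (hb.antitone (le_max_left _ _))),
    h₂ x (le_trans (le_max_right _ _) hx) (hx'.trans (hb.antitone (le_max_right _ _)))]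
  exact (ap_min (Eventually.of_forall hH') x).symm

theorem loc_mul {f g : St T ≃o St T} (hf : Loc L f) (hg : Loc L g) : Loc L (f * g) := by
  intro b hb hl
  obtain ⟨a₁, ha₁, m₁, G, hG, h₁⟩ := hg b hb hl
  obtain ⟨l, hl⟩ := hl
  obtain ⟨a₂, ha₂, m₂, F, hF, h₂⟩ := hf (fun k => g (b k))
    (fun i j hij => g.strictMono (hb hij)) ⟨g l, fun k => g.strictMono (hl k)⟩
  refine ⟨max a₁ (g.symm a₂), fun k => max_lt (ha₁ k) ?_, max m₁ m₂, fun n => F n * G n,
    fun n => L.mul_mem (hF n) (hG n), fun x hx hx' => ?_⟩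
  · rw [OrderIso.symm_apply_lt]; exact ha₂ k
  · have e1 := h₁ x (le_trans (le_max_left _ _) hx) (hx'.trans (hb.antitone (le_max_left _ _)))
    have e2 := h₂ (g x) (by
      have := le_trans (le_max_right _ _) hx
      rwa [OrderIso.symm_apply_le] at this)
      (g.monotone (hx'.trans (hb.antitone (le_max_right _ _))))
    show f (g x) = _
    rw [e2, e1, ap_mul]; rfl

theorem loc_inv {f : St T ≃o St T} (hf : Loc L f) : Loc L f⁻¹ := by
  intro b hb hl
  obtain ⟨l, hl⟩ := hl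
  obtain ⟨a, ha, m, F, hF, h⟩ := hf (fun k => f.symm (b k))
    (fun i j hij => f.symm.strictMono (hb hij)) ⟨f.symm l, fun k => f.symm.strictMono (hl k)⟩
  have hfa : ∀ k, f a < b k := fun k => by
    have := ha k
    rwa [OrderIso.lt_symm_apply] at this
  refine ⟨f a, hfa, m, fun n => (F n)⁻¹, fun n => L.inv_mem (hF n), fun y hy hy' => ?_⟩
  have e := h (f.symm y) (by rwa [OrderIso.le_symm_apply]) (f.symm.monotone hy')
  rw [OrderIso.apply_symm_apply] at e
  show f.symm y = _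
  rw [ap_inv]
  show f.symm y = (ap (hyperfilter ℕ) F).symm y
  rw [OrderIso.eq_symm_apply]
  exact e.symm

/-- The lattice-ordered group: bounded support and `Loc`. -/
def LU (L : Subgroup (T ≃o T)) (hne : Nonempty T) : Subgroup (St T ≃o St T) where
  carrier := {f | (∃ t₁ t₂ : St T, (∀ s, s < t₁ → f s = s) ∧ (∀ s, t₂ < s → f s = s)) ∧ Loc L f}
  one_mem' := by
    obtain ⟨x⟩ := hne
    exact ⟨⟨((fun _ => x : ℕ → T) : St T), ((fun _ => x : ℕ → T) : St T),
      fun _ _ => rfl, fun _ _ => rfl⟩, loc_one⟩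
  mul_mem' := by
    rintro f g ⟨⟨t₁, t₂, h₁, h₂⟩, hf⟩ ⟨⟨t₃, t₄, h₃, h₄⟩, hg⟩
    refine ⟨⟨min t₁ t₃, max t₂ t₄, fun s hs => ?_, fun s hs => ?_⟩, loc_mul hf hg⟩
    · show f (g s) = s
      rw [h₃ s (lt_of_lt_of_le hs (min_le_right _ _)), h₁ s (lt_of_lt_of_le hs (min_le_left _ _))]
    · show f (g s) = s
      rw [h₄ s (lt_of_le_of_lt (le_max_right _ _) hs), h₂ s (lt_of_le_of_lt (le_max_left _ _) hs)]
  inv_mem' := by
    rintro f ⟨⟨t₁, t₂, h₁, h₂⟩, hf⟩
    refine ⟨⟨t₁, t₂, fun s hs => ?_, fun s hs => ?_⟩, loc_inv hf⟩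
    · show f.symm s = s
      rw [OrderIso.symm_apply_eq]; exact (h₁ s hs).symm
    · show f.symm s = s
      rw [OrderIso.symm_apply_eq]; exact (h₂ s hs).symm

theorem mem_LU (hne : Nonempty T) (f : St T ≃o St T) : f ∈ LU L hne ↔
    (∃ t₁ t₂ : St T, (∀ s, s < t₁ → f s = s) ∧ (∀ s, t₂ < s → f s = s)) ∧ Loc L f := Iff.rfl

theorem LU_sublattice (hL : IsSublatticeOf L) (hne : Nonempty T) : IsSublatticeOf (LU L hne) := by
  rintro f ⟨⟨t₁, t₂, h₁, h₂⟩, hf⟩ g ⟨⟨t₃, t₄, h₃, h₄⟩, hg⟩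
  refine ⟨⟨osup f g, ⟨⟨min t₁ t₃, max t₂ t₄, fun s hs => ?_, fun s hs => ?_⟩,
      loc_max hL hf hg (fun x => rfl)⟩,
    fun t => rfl⟩, ⟨oinf f g, ⟨⟨min t₁ t₃, max t₂ t₄, fun s hs => ?_, fun s hs => ?_⟩,
    loc_min hL hf hg (fun x => rfl)⟩, fun t => rfl⟩⟩
  · rw [osup_apply, h₃ s (lt_of_lt_of_le hs (min_le_right _ _)),
      h₁ s (lt_of_lt_of_le hs (min_le_left _ _)), max_self]
  · rw [osup_apply, h₄ s (lt_of_le_of_lt (le_max_right _ _) hs),
      h₂ s (lt_of_le_of_lt (le_max_left _ _) hs), max_self]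
  · rw [oinf_apply, h₃ s (lt_of_lt_of_le hs (min_le_right _ _)),
      h₁ s (lt_of_lt_of_le hs (min_le_left _ _)), min_self]
  · rw [oinf_apply, h₄ s (lt_of_le_of_lt (le_max_right _ _) hs),
      h₂ s (lt_of_le_of_lt (le_max_left _ _) hs), min_self]

theorem ap_mem_LU (hbd : BoundedSupport L) (hne : Nonempty T) (F : ℕ → (T ≃o T))
    (hF : ∀ n, F n ∈ L) : ap (hyperfilter ℕ) F ∈ LU L hne :=
  ⟨ap_bdd hbd F hF, loc_ap F hF⟩

theorem LU_trans (h2 : TwoTransitive L) (hbd : BoundedSupport L) (hne : Nonempty T) :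
    TwoTransitive (LU L hne) := by
  intro r₁ r₂ s₁ s₂ hr hs
  obtain ⟨F, hF, h3, h4⟩ := ap_trans h2 r₁ r₂ s₁ s₂ hr hs
  exact ⟨_, ap_mem_LU hbd hne F hF, h3, h4⟩

theorem LU_no_lprime [DenselyOrdered T] [NoMinOrder T] [NoMaxOrder T] (hne : Nonempty T)
    (f : St T ≃o St T) (hf : f ∈ LU L hne) (hpos : ∀ t, t ≤ f t)
    (hne1 : f ≠ 1) : ∃ f₁ ∈ LU L hne, ∃ f₂ ∈ LU L hne, f₁ ≠ 1 ∧ f₂ ≠ 1 ∧
      (∀ t, min (f₁ t) (f₂ t) = t) ∧ (∀ t, max (f₁ t) (f₂ t) = f t) := by
  obtain ⟨⟨t₁, t₂, h₁, h₂⟩, hloc⟩ := (mem_LU hne f).1 hf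
  -- a point moved by `f`
  have hu : ∃ u, u < f u := by
    by_contra hcon
    push Not at hcon
    apply hne1
    ext x
    exact le_antisymm (hcon x) (hpos x)
  obtain ⟨u, hu⟩ := hu
  -- a fixed point below `u`
  have hlt : ∀ x : St T, ∃ y, y < x := by
    intro x
    induction x using Germ.inductionOn with
    | h x =>
      choose y hy using fun n => exists_lt (x n)
      exact ⟨(y : St T), Germ.coe_lt.2 (Eventually.of_forall hy)⟩
  obtain ⟨s, hs⟩ := hlt (min t₁ u)
  have hs1 : f s = s := h₁ s (lt_of_lt_of_le hs (min_le_left _ _))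
  have hsu : s < u := lt_of_lt_of_le hs (min_le_right _ _)
  -- the backward orbit
  let b : ℕ → St T := fun k => (f.symm)^[k] u
  have hb0 : b 0 = u := rfl
  have hbs : ∀ k, f (b (k + 1)) = b k := by
    intro k
    show f ((f.symm)^[k + 1] u) = (f.symm)^[k] u
    rw [Function.iterate_succ_apply', OrderIso.apply_symm_apply]
  have hblt : ∀ k, b (k + 1) < b k := by
    intro k
    induction k with
    | zero =>
      show f.symm u < u
      rw [OrderIso.symm_apply_lt]; exact hu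
    | succ k ih =>
      rw [← f.lt_iff_lt, hbs, hbs]; exact ih
  have hanti : StrictAnti b := strictAnti_nat_of_succ_lt hblt
  have hbl : ∀ k, s < b k := by
    intro k
    induction k with
    | zero => exact hsu
    | succ k ih =>
      rw [← f.lt_iff_lt, hbs, hs1]; exact ih
  obtain ⟨a, ha, m, F, hF, hFf⟩ := hloc b hanti ⟨s, hbl⟩
  have hbf : ∀ k, b k < f (b k) := by
    intro k
    cases k with
    | zero => exact hu
    | succ k => rw [hbs]; exact hblt k
  -- find a moved point below the whole backward orbit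
  have hv : ∃ v, (∀ k, v < b k) ∧ v < f v := by
    obtain ⟨v, hv1, hv2, hv3⟩ := overspill F b hanti a ha m (by
      intro k hk
      rw [← hFf (b k) (ha k).le (hanti.antitone hk)]
      exact hbf k)
    refine ⟨v, hv2, ?_⟩
    rw [hFf v hv1.le (hv2 m).le]
    exact hv3
  obtain ⟨v, hvb, hvf⟩ := hv
  -- the forward orbit of `v`
  let w : ℕ → St T := fun k => f^[k] v
  have hws : ∀ k, f (w k) = w (k + 1) := by
    intro k
    show f (f^[k] v) = f^[k + 1] v
    rw [Function.iterate_succ_apply']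
  have hwlt : ∀ k, w k < w (k + 1) := by
    intro k
    induction k with
    | zero => exact hvf
    | succ k ih => rw [← hws, ← hws]; exact f.strictMono ih
  have hwb : ∀ j k, w j < b k := by
    intro j
    induction j with
    | zero => exact hvb
    | succ j ih =>
      intro k
      rw [← hws, ← hbs]
      exact f.strictMono (ih (k + 1))
  let A : Set (St T) := {x | ∃ k, x < w k}
  have hA : ∀ x y, x ≤ y → y ∈ A → x ∈ A := by
    rintro x y hxy ⟨k, hk⟩
    exact ⟨k, lt_of_le_of_lt hxy hk⟩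
  have hfA : ∀ x, f x ∈ A ↔ x ∈ A := by
    intro x
    constructor
    · rintro ⟨k, hk⟩
      exact ⟨k, lt_of_le_of_lt (hpos x) hk⟩
    · rintro ⟨k, hk⟩
      exact ⟨k + 1, by rw [← hws]; exact f.strictMono hk⟩
  have hvA : v ∈ A := ⟨1, hvf⟩
  have huA : u ∉ A := by
    rintro ⟨k, hk⟩
    exact absurd (hwb k 0) (not_lt.2 (by rw [hb0]; exact hk.le))
  -- a point separating the cut of `A` from a decreasing sequence above it
  have hsep : ∀ d : ℕ → St T, StrictAnti d → (∀ k, d k ∉ A) → ∃ c, c ∉ A ∧ ∀ k, c < d k := by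
    intro d hd hdA
    have h : ∀ i j, w i < d j := by
      intro i j
      refine lt_of_lt_of_le (hwlt i) ?_
      by_contra hcon
      exact hdA j ⟨i + 1, not_le.1 hcon⟩
    obtain ⟨c, hc⟩ := eta w d h
    refine ⟨c, ?_, fun k => (hc k).2⟩
    rintro ⟨k, hk⟩
    exact absurd (hc k).1 (not_lt.2 hk.le)
  have hone : ∀ x : St T, x = ap (hyperfilter ℕ) (fun _ => (1 : T ≃o T)) x := by
    intro x; rw [ap_one]; rfl
  have hlow : Loc L (low f A hA hfA) := by
    intro d hd hl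
    by_cases hcase : ∃ k, d k ∈ A
    · obtain ⟨k, hk⟩ := hcase
      obtain ⟨a', ha', m', F', hF', h'⟩ := hloc d hd hl
      refine ⟨a', ha', max m' k, F', hF', fun x hx hx' => ?_⟩
      have hxA : x ∈ A := hA _ _ (hx'.trans (hd.antitone (le_max_right _ _))) hk
      rw [low_apply, if_pos hxA]
      exact h' x hx (hx'.trans (hd.antitone (le_max_left _ _)))
    · push Not at hcase
      obtain ⟨c, hcA, hc⟩ := hsep d hd hcase
      refine ⟨c, hc, 0, fun _ => 1, fun _ => L.one_mem, fun x hx hx' => ?_⟩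
      have hxA : x ∉ A := fun hxA => hcA (hA _ _ hx hxA)
      rw [low_apply, if_neg hxA]; exact hone x
  have hhigh : Loc L (high f A hA hfA) := by
    intro d hd hl
    obtain ⟨a', ha', m', F', hF', h'⟩ := hloc d hd hl
    by_cases hcase : ∃ k, d k ∈ A
    · obtain ⟨k, hk⟩ := hcase
      refine ⟨a', ha', k, fun _ => 1, fun _ => L.one_mem, fun x hx hx' => ?_⟩
      have hxA : x ∈ A := hA _ _ hx' hk
      rw [high_apply, if_pos hxA]; exact hone x
    · push Not at hcase
      obtain ⟨c, hcA, hc⟩ := hsep d hd hcase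
      refine ⟨max a' c, fun k => max_lt (ha' k) (hc k), m', F', hF', fun x hx hx' => ?_⟩
      have hxA : x ∉ A := fun hxA => hcA (hA _ _ ((le_max_right _ _).trans hx) hxA)
      rw [high_apply, if_neg hxA]
      exact h' x ((le_max_left _ _).trans hx) hx'
  refine ⟨low f A hA hfA, ⟨⟨t₁, t₂, fun x hx => ?_, fun x hx => ?_⟩, hlow⟩,
    high f A hA hfA, ⟨⟨t₁, t₂, fun x hx => ?_, fun x hx => ?_⟩, hhigh⟩, ?_, ?_, ?_, ?_⟩
  · rw [low_apply]; split_ifs
    · exact h₁ x hx
    · rfl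
  · rw [low_apply]; split_ifs
    · exact h₂ x hx
    · rfl
  · rw [high_apply]; split_ifs
    · rfl
    · exact h₁ x hx
  · rw [high_apply]; split_ifs
    · rfl
    · exact h₂ x hx
  · intro h
    have h' : low f A hA hfA v = v := by rw [h]; rfl
    rw [low_apply, if_pos hvA] at h'
    exact absurd hvf (by rw [h']; exact lt_irrefl _)
  · intro h
    have h' : high f A hA hfA u = u := by rw [h]; rfl
    rw [high_apply, if_neg huA] at h'
    exact absurd hu (by rw [h']; exact lt_irrefl _)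
  · intro t
    rw [low_apply, high_apply]
    by_cases ht : t ∈ A
    · rw [if_pos ht, if_pos ht]; exact min_eq_right (hpos t)
    · rw [if_neg ht, if_neg ht]; exact min_eq_left (hpos t)
  · intro t
    rw [low_apply, high_apply]
    by_cases ht : t ∈ A
    · rw [if_pos ht, if_pos ht]; exact max_eq_left (hpos t)
    · rw [if_neg ht, if_neg ht]; exact max_eq_right (hpos t)

end Pool.Agent.Y29.LP
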