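import Pool.Agent.Y29.LP.LS

/-!
Continuum many countable lattice-ordered groups without l-primes.
-/

namespace Pool.Agent.Y29.LP

open Cardinal

/-- isomorphism of lattice-ordered groups of automorphisms of `ℚ` -/
def IsoL (L L' : Subgroup (ℚ ≃o ℚ)) : Prop :=
  ∃ θ : L ≃* L', ∀ a b : L, (∀ t, a.1 t ≤ b.1 t) ↔ (∀ t, (θ a).1 t ≤ (θ b).1 t)

theorem IsoL.refl (L : Subgroup (ℚ ≃o ℚ)) : IsoL L L := ⟨MulEquiv.refl L, fun _ _ => Iff.rfl⟩

theorem IsoL.symm {L L' : Subgroup (ℚ ≃o ℚ)} (h : IsoL L L') : IsoL L' L := by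
  obtain ⟨θ, h⟩ := h
  refine ⟨θ.symm, fun a b => ?_⟩
  have h1 := h (θ.symm a) (θ.symm b)
  rw [MulEquiv.apply_symm_apply, MulEquiv.apply_symm_apply] at h1
  exact h1.symm

theorem IsoL.trans {L L' L'' : Subgroup (ℚ ≃o ℚ)} (h : IsoL L L') (h' : IsoL L' L'') :
    IsoL L L'' := by
  obtain ⟨θ, h⟩ := h
  obtain ⟨θ', h'⟩ := h'
  exact ⟨θ.trans θ', fun a b => (h a b).trans (h' _ _)⟩

/-- the homomorphism `(m, n) ↦ m + n α` -/
def hm (α : ℝ) : ℤ × ℤ →+ ℝ where
  toFun p := p.1 + p.2 * α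
  map_zero' := by simp
  map_add' p q := by simp; ring

/-- the ordered group `ℤ + ℤ α`, written multiplicatively -/
abbrev HH (α : ℝ) : Type := Multiplicative (hm α).range

instance (α : ℝ) : Countable (HH α) := by
  have h : Countable (hm α).range := (Set.countable_range (hm α)).to_subtype
  exact h

/-- the property which determines `α` -/
def PP (α : ℝ) (u v : ℚ ≃o ℚ) : Prop :=
  ∀ m n : ℤ, (∀ t, t ≤ (u ^ m * v ^ n) t) ↔ 0 ≤ (m : ℝ) + n * α

theorem PP.unique {α α' : ℝ} {u v : ℚ ≃o ℚ} (h : PP α u v) (h' : PP α' u v) : α = α' := by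
  have key : ∀ {α α' : ℝ} {u v : ℚ ≃o ℚ}, PP α u v → PP α' u v → ¬ α < α' := by
    intro α α' u v h h' hlt
    obtain ⟨q, hq1, hq2⟩ := exists_rat_btwn hlt
    have hden : (0 : ℝ) < q.den := by exact_mod_cast q.den_pos
    have hq : (q : ℝ) = q.num / q.den := by
      exact_mod_cast (Rat.num_div_den q).symm
    have e1 : ¬ 0 ≤ (((-q.num : ℤ)) : ℝ) + ((q.den : ℤ) : ℝ) * α := by
      push_cast
      rw [hq, lt_div_iff₀ hden] at hq1
      linarith
    have e2 : 0 ≤ (((-q.num : ℤ)) : ℝ) + ((q.den : ℤ) : ℝ) * α' := by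
      push_cast
      rw [hq, div_lt_iff₀ hden] at hq2
      linarith
    exact e1 ((h _ _).1 ((h' _ _).2 e2))
  rcases lt_trichotomy α α' with h1 | h1 | h1
  · exact absurd h1 (key h h')
  · exact h1
  · exact absurd h1 (key h' h)

theorem fam (G : Type) [Group G] [Lattice G] [MulLeftMono G] [MulRightMono G] [Countable G]
    (α : ℝ) : ∃ L : Subgroup (ℚ ≃o ℚ), (L : Set (ℚ ≃o ℚ)).Countable ∧ Nice L ∧
      (∃ φ : G →* (ℚ ≃o ℚ), Emb L φ) ∧ ∃ u ∈ L, ∃ v ∈ L, PP α u v := by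
  have i1 : MulLeftMono (G × HH α) :=
    ⟨fun a b c h => ⟨mul_le_mul_right h.1 a.1, mul_le_mul_right h.2 a.2⟩⟩
  have i2 : MulRightMono (G × HH α) :=
    ⟨fun a b c h => ⟨mul_le_mul_left h.1 a.1, mul_le_mul_left h.2 a.2⟩⟩
  obtain ⟨T, LO, hne, hd, hmin, hmax, L, h1, φ, hφ⟩ := every (G × HH α)
  obtain ⟨L', hc, hn, φ', hφ'⟩ := ls hne L h1 φ hφ
  have hord : ∀ g : G × HH α, (∀ t, t ≤ φ' g t) ↔ 1 ≤ g := by
    intro g
    constructor
    · intro h
      by_contra hcon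
      have h2 : (g ⊔ 1) * g⁻¹ ≠ 1 := by
        intro h3
        exact hcon (sup_eq_left.1 (mul_inv_eq_one.1 h3))
      apply hφ'.inj _ h2
      have h4 : φ' (g ⊔ 1) = φ' g := by
        ext t
        rw [hφ'.sup, map_one]
        exact max_eq_left (h t)
      rw [map_mul, map_inv, h4, mul_inv_cancel]
    · intro h t
      have h4 : φ' g t = max (φ' g t) (φ' 1 t) := by
        rw [← hφ'.sup, sup_eq_left.2 h]
      rw [map_one] at h4
      rw [h4]
      exact le_max_right _ _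
  refine ⟨L', hc, hn, ⟨φ'.comp (MonoidHom.inl G (HH α)), ⟨?_, ?_, ?_, ?_⟩⟩,
    φ' (1, Multiplicative.ofAdd ⟨hm α (1, 0), ⟨_, rfl⟩⟩), hφ'.mem _,
    φ' (1, Multiplicative.ofAdd ⟨hm α (0, 1), ⟨_, rfl⟩⟩), hφ'.mem _, ?_⟩
  · intro g; exact hφ'.mem _
  · intro g hg
    apply hφ'.inj
    intro h
    exact hg (congrArg Prod.fst h)
  · intro a b t
    show φ' (a ⊔ b, 1) t = max (φ' (a, 1) t) (φ' (b, 1) t)
    rw [← hφ'.sup]
    show _ = φ' (a ⊔ b, 1 ⊔ 1) t
    rw [sup_idem]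
  · intro a b t
    show φ' (a ⊓ b, 1) t = min (φ' (a, 1) t) (φ' (b, 1) t)
    rw [← hφ'.inf]
    show _ = φ' (a ⊓ b, 1 ⊓ 1) t
    rw [inf_idem]
  · intro m n
    rw [← map_zpow, ← map_zpow, ← map_mul, hord]
    have e : ((1, Multiplicative.ofAdd ⟨hm α (1, 0), ⟨_, rfl⟩⟩) : G × HH α) ^ m *
        ((1, Multiplicative.ofAdd ⟨hm α (0, 1), ⟨_, rfl⟩⟩) : G × HH α) ^ n =
        (1, Multiplicative.ofAdd ⟨hm α (m, n), ⟨_, rfl⟩⟩) := by
      rw [Prod.pow_mk, Prod.pow_mk, Prod.mk_mul_mk, one_zpow, one_zpow, one_mul]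
      congr 1
      rw [← ofAdd_zsmul, ← ofAdd_zsmul, ← ofAdd_add]
      congr 1
      apply Subtype.ext
      show m • hm α (1, 0) + n • hm α (0, 1) = hm α (m, n)
      simp [hm]
    rw [e]
    constructor
    · intro h
      have h2 := h.2
      exact h2
    · intro h
      exact ⟨le_rfl, h⟩

/-- For every countable lattice-ordered group there are continuum many pairwise non-isomorphic
nice countable groups containing it. -/
theorem many (G : Type) [Group G] [Lattice G] [MulLeftMono G] [MulRightMono G] [Countable G] :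
    ∃ Λ : ℝ → Subgroup (ℚ ≃o ℚ), (∀ r, (Λ r : Set (ℚ ≃o ℚ)).Countable ∧ Nice (Λ r) ∧
      ∃ φ : G →* (ℚ ≃o ℚ), Emb (Λ r) φ) ∧ ∀ r r', r ≠ r' → ¬ IsoL (Λ r) (Λ r') := by
  classical
  choose M hc hn hE u hu v hv hP using fun α => fam G α
  let S : Setoid ℝ :=
    { r := fun α β => IsoL (M α) (M β)
      iseqv := ⟨fun α => IsoL.refl _, fun h => h.symm, fun h h' => h.trans h'⟩ }
  have hcl : ∀ β, {α | IsoL (M α) (M β)}.Countable := by
    intro β
    have i1 : Countable (M β) := (hc β).to_subtype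
    choose θ hθ using fun α : {α | IsoL (M α) (M β)} => α.2
    have hinj : Function.Injective (fun α : {α | IsoL (M α) (M β)} =>
        ((θ α ⟨u α, hu α⟩, θ α ⟨v α, hv α⟩) : M β × M β)) := by
      intro α α' h
      have key : ∀ α : {α | IsoL (M α) (M β)},
          PP α.1 (θ α ⟨u α, hu α⟩).1 (θ α ⟨v α, hv α⟩).1 := by
        intro α m n
        rw [← hP α.1 m n]
        have h1 := hθ α 1 (⟨u α, hu α⟩ ^ m * ⟨v α, hv α⟩ ^ n)
        rw [map_one, map_mul, map_zpow, map_zpow] at h1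
        exact h1.symm
      have h1 := key α
      have h2 := key α'
      have h3 := Prod.ext_iff.1 h
      have h4 : (θ α ⟨u α, hu α⟩) = (θ α' ⟨u α', hu α'⟩) := h3.1
      have h5 : (θ α ⟨v α, hv α⟩) = (θ α' ⟨v α', hv α'⟩) := h3.2
      rw [h4, h5] at h1
      exact Subtype.ext (h1.unique h2)
    exact Set.countable_coe_iff.1 hinj.countable
  have hq : #ℝ ≤ #(Quotient S) * ℵ₀ := by
    apply Cardinal.mk_le_mk_mul_of_mk_preimage_le (f := fun α : ℝ => (Quotient.mk S α))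
    intro b
    obtain ⟨β, rfl⟩ := Quotient.exists_rep b
    have h1 : (fun α : ℝ => (Quotient.mk S α)) ⁻¹' {Quotient.mk S β} = {α | IsoL (M α) (M β)} := by
      ext α
      constructor
      · intro h; exact Quotient.exact h
      · intro h; exact Quotient.sound h
    rw [h1]
    exact Cardinal.mk_le_aleph0_iff.2 (hcl β).to_subtype
  have hle : #ℝ ≤ #(Quotient S) := by
    by_contra hcon
    push Not at hcon
    have h1 : #(Quotient S) * ℵ₀ < #ℝ := by
      apply Cardinal.mul_lt_of_lt _ hcon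
      · rw [Cardinal.mk_real]; exact Cardinal.aleph0_lt_continuum
      · rw [Cardinal.mk_real]; exact Cardinal.aleph0_le_continuum
    exact absurd hq (not_le.2 h1)
  obtain ⟨j⟩ := hle
  refine ⟨fun r => M (Quotient.out (j r)), fun r => ⟨hc _, hn _, hE _⟩, ?_⟩
  intro r r' hrr h
  apply hrr
  apply j.injective
  rw [← Quotient.out_eq (j r), ← Quotient.out_eq (j r')]
  exact Quotient.sound h

end Pool.Agent.Y29.LP
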